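import Pool.Agent.Y691.TU.Ev

/-!
# The threshold over rings of fractions of integers
-/

set_option autoImplicit false

open CategoryTheory AlgebraicGeometry MvPolynomial TopologicalSpace

namespace Pool.Agent.Y691.TU

open Pool.Agent.Y116.UV Pool.Agent.Y101.Th Pool.Agent.Z125.UN

section has

variable {R : Type} [CommRing R] {S : Set R} {n : ℕ}

section

variable (h0 : (0 : R) ∈ S) (h1 : (1 : R) ∈ S)

include h0 h1

lemma has_intc (m : ℤ) : Has S (C (m : R) : MvPolynomial (Fin n) R) := by
  have hz : Has S (0 : MvPolynomial (Fin n) R) := by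
    have h := has_add h0 h1 (has_one (n := n) h0 h1) (has_neg h0 h1 (has_one h0 h1))
    rw [add_neg_cancel] at h
    exact h
  induction m using Int.induction_on with
  | zero =>
    rw [Int.cast_zero, map_zero]
    exact hz
  | succ m ih =>
    have h := has_add h0 h1 ih (has_one h0 h1)
    push_cast at h ⊢
    rw [map_add, map_one]
    exact h
  | pred m ih =>
    have h := has_add h0 h1 ih (has_neg h0 h1 (has_one h0 h1))
    have e : (C (((-(m : ℤ) - 1 : ℤ)) : R) : MvPolynomial (Fin n) R) =
        C (((-(m : ℤ) : ℤ)) : R) + -1 := by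
      rw [Int.cast_sub, Int.cast_one, map_sub, map_one, sub_eq_add_neg]
    rw [e]
    exact h

/-- polynomials with integral coefficients occur in systems -/
lemma has_map (q : MvPolynomial (Fin n) ℤ) : Has S (map (Int.castRingHom R) q) := by
  induction q using MvPolynomial.induction_on with
  | C r =>
    rw [map_C]
    exact has_intc h0 h1 r
  | add p q hp hq =>
    rw [map_add]
    exact has_add h0 h1 hp hq
  | mul_X p i hp =>
    rw [map_mul, map_X]
    exact has_X h0 h1 hp i

lemma has_of_coeff (p : MvPolynomial (Fin n) R) (hp : ∀ m, ∃ w : ℤ, (w : R) = coeff m p) :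
    Has S p := by
  have h : p ∈ Set.range (map (Int.castRingHom R) : MvPolynomial (Fin n) ℤ → _) := by
    rw [mem_range_map_iff_coeffs_subset]
    intro c hc
    obtain ⟨m, hm, rfl⟩ := mem_coeffs_iff.mp (Finset.mem_coe.mp hc)
    obtain ⟨w, hw⟩ := hp m
    exact ⟨w, hw⟩
  obtain ⟨q, rfl⟩ := h
  exact has_map h0 h1 q

end

/-- a system in which the elements of a finite set of polynomials occur -/
theorem exists_sys' (h0 : (0 : R) ∈ S) (G : Finset (MvPolynomial (Fin n) R))
    (h : ∀ p ∈ G, Has S p) : ∃ s : Sy S n, ∀ g ∈ G, ∃ e, s.F e = g := by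
  classical
  induction G using Finset.induction_on with
  | empty => exact ⟨Sy.empty S n, fun g hg => absurd hg (Finset.notMem_empty g)⟩
  | insert p G _ ih =>
    obtain ⟨s, hs⟩ := ih fun q hq => h q (Finset.mem_insert_of_mem hq)
    obtain ⟨t, e, he⟩ := h p (Finset.mem_insert_self _ _)
    refine ⟨Sy.union h0 s t, fun g hg => ?_⟩
    rcases Finset.mem_insert.mp hg with rfl | hg
    · exact ⟨Sum.inr e, he⟩
    · obtain ⟨e', he'⟩ := hs g hg
      exact ⟨Sum.inl e', he'⟩

end has

variable {R : Type} [CommRing R] {sep : Prop} {P : Sch R → Prop} {S : Set R}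

theorem closed_of_fin [IsNoetherianRing R] (hP : Uni sep P) (h0 : (0 : R) ∈ S)
    (h1 : (1 : R) ∈ S) {n : ℕ} (G : Finset (MvPolynomial (Fin n) R)) (hHas : ∀ p ∈ G, Has S p)
    (hH : ∀ (a b : ℕ) (T : Fin a → Fin b → Fin (n + 1) → R), (∀ i j k, T i j k ∈ S) →
      P (aff R (Hyp T))) :
    P (aff R (MvPolynomial (Fin n) R ⧸ Ideal.span (G : Set (MvPolynomial (Fin n) R)))) := by
  classical
  obtain ⟨s, hs⟩ := exists_sys' h0 G hHas
  have hs' : ∀ g : G, ∃ e, s.F e = g.1 := fun g => hs g.1 g.2
  choose e he using hs'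
  have hcard : Fintype.card (Option (Fin n)) = n + 1 := by simp
  have hmem : ∀ k, bil (Option s.β) (Option (Fin n)) (cT s G e k) ∈
      bilIn S (Option s.β) (Option (Fin n)) := fun k => ⟨_, fun j o => cT_mem s G e h0 h1 k j o, rfl⟩
  have hA : P (aff R (CR s G e)) := of_bil' hP hH hcard _ hmem
  let f' : Option (s.κ ⊕ G) → MvPolynomial (Option s.β ⊕ Option (Fin n)) R := fun k =>
    k.elim (cw0 s) fun k => bil (Option s.β) (Option (Fin n)) (cT s G e k)
  have h2 : P (aff R (MvPolynomial (Option s.β ⊕ Option (Fin n)) R ⧸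
      Ideal.span (Set.range f'))) := by
    apply of_bil' hP hH hcard f'
    rintro (_ | k)
    · exact single_mem h0 h1 _ _
    · exact hmem k
  have h3 : Ideal.span (Set.range f') = cI s G e ⊔ Ideal.span {cw0 s} := by
    rw [cI, ← Ideal.span_union]
    congr 1
    ext x
    constructor
    · rintro ⟨_ | k, rfl⟩
      · exact Or.inr rfl
      · exact Or.inl ⟨k, rfl⟩
    · rintro (⟨k, rfl⟩ | rfl)
      · exact ⟨some k, rfl⟩
      · exact ⟨none, rfl⟩
  rw [h3] at h2
  have h4 : P (aff R (CR s G e ⧸ Ideal.span {cwe s G e})) := by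
    have E := (DoubleQuot.quotQuotEquivQuotSupₐ R (cI s G e) (Ideal.span {cw0 s})).symm
    have h5 := iso_alg (B := CR s G e ⧸ Ideal.map (Ideal.Quotient.mkₐ R (cI s G e))
      (Ideal.span {cw0 s})) hP E h2
    have h6 : Ideal.map (Ideal.Quotient.mkₐ R (cI s G e)) (Ideal.span {cw0 s}) =
        Ideal.span {cwe s G e} := by
      rw [Ideal.map_span, Set.image_singleton]
      rfl
    rw [← h6]
    exact h5
  have h5 := away_of_quot hP (cwe s G e) hA h4
  obtain ⟨E⟩ := cone_iso s G e he
  have h6 : Algebra.FiniteType R (Localization.Away (cwe s G e)) := ft_away _ _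
  have h7 := ft_laurent (R := R) (MvPolynomial (Fin n) R ⧸
    Ideal.span (G : Set (MvPolynomial (Fin n) R)))
  exact hP.torus _ (hP.torus _ (iso_alg hP E h5))

/-- Over a noetherian ring of fractions of integers the tripartite hypergraphs with `n + 1` vertices
in the third part decide the closed subschemes of `𝔸^n`. -/
theorem closed_of_trip [IsNoetherianRing R] (hR : IsFrac R) (hP : Uni sep P) {n : ℕ}
    (h : ∀ (a b : ℕ) (H : Finset (Fin a × Fin b × Fin (n + 1))), P (tripS R H))
    (I : Ideal (MvPolynomial (Fin n) R)) : P (aff R (MvPolynomial (Fin n) R ⧸ I)) := by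
  classical
  obtain ⟨G0, rfl⟩ := (isNoetherianRing_iff_ideal_fg _).mp
    (inferInstance : IsNoetherianRing (MvPolynomial (Fin n) R)) I
  choose u hu w0 hw0 using fun g : MvPolynomial (Fin n) R => frac_scale hR g
  let G : Finset (MvPolynomial (Fin n) R) := G0.image fun g => C (u g) * g
  have hK : Ideal.span (G0 : Set (MvPolynomial (Fin n) R)) =
      Ideal.span (G : Set (MvPolynomial (Fin n) R)) := by
    apply le_antisymm
    · rw [Ideal.span_le]
      intro g hg
      obtain ⟨v, hv⟩ := (hu g).exists_left_inv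
      have h1 : g = C v * (C (u g) * g) := by
        rw [← mul_assoc, ← C_mul, hv, C_1, one_mul]
      have h2 : C (u g) * g ∈ Ideal.span (G : Set (MvPolynomial (Fin n) R)) :=
        Ideal.subset_span (Finset.mem_coe.mpr (Finset.mem_image_of_mem _ hg))
      have h3 := Ideal.mul_mem_left _ (C v) h2
      rw [← h1] at h3
      exact h3
    · rw [Ideal.span_le]
      intro g hg
      obtain ⟨g', hg', rfl⟩ := Finset.mem_image.mp (Finset.mem_coe.mp hg)
      exact Ideal.mul_mem_left _ _ (Ideal.subset_span hg')
  rw [hK]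
  refine closed_of_fin hP (S := {0, 1}) (Or.inl rfl) (Or.inr rfl) G ?_ ?_
  · intro p hp
    obtain ⟨g, -, rfl⟩ := Finset.mem_image.mp hp
    exact has_of_coeff (S := ({0, 1} : Set R)) (Or.inl rfl) (Or.inr rfl) _
      fun m => ⟨w0 g m, hw0 g m⟩
  · intro a b T hT
    let H : Finset (Fin a × Fin b × Fin (n + 1)) :=
      Finset.univ.filter fun h => T h.1 h.2.1 h.2.2 = 1
    have h1 : T = fun i j k => if (i, j, k) ∈ H then (1 : R) else 0 := by
      funext i j k
      have hm : (i, j, k) ∈ H ↔ T i j k = 1 := by
        rw [Finset.mem_filter]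
        exact ⟨fun h => h.2, fun h => ⟨Finset.mem_univ _, h⟩⟩
      by_cases h : T i j k = 1
      · rw [if_pos (hm.mpr h), h]
      · rw [if_neg fun h2 => h (hm.mp h2)]
        rcases hT i j k with h2 | h2
        · exact h2
        · exact absurd h2 h
    have h2 := h a b H
    unfold tripS Trip at h2
    rw [← tri_ind, ← h1] at h2
    exact h2

section field

variable {k : Type} [Field k] {P : Sch k → Prop}

/-- All schemes of dimension at most `n` if and only if all tripartite hypergraphs whose third part
has `n + 2` vertices, over a field of fractions of integers. -/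
theorem gen_frac [PerfectField k] (hk : IsFrac k) (hP : Bnd True P) (n : ℕ) :
    (∀ X : Sch k, FT True X → topologicalKrullDim X.left ≤ n → P X) ↔
      ∀ (a b : ℕ) (H : Finset (Fin a × Fin b × Fin (n + 2))), P (tripS k H) := by
  classical
  constructor
  · intro h a b H
    have h1 := (gen_dim hP n).mp h a b (n + 2) (fun i j k => if (i, j, k) ∈ H then 1 else 0)
      (Or.inr (Or.inr le_rfl))
    unfold hypS at h1
    unfold tripS Trip
    rw [← tri_ind]
    exact h1
  · intro h
    rw [dim_tri hP n]
    have h2 := closed_of_trip (n := n + 1) hk hP.toUni h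
    exact ((threshold (uniB_of_bnd hP) (n + 1)).out 0 1).mp h2

end field

section motives

open CategoryTheory.Limits

universe v u

variable {k : Type} [Field k] {C : Type u} [Category.{v} C] [Abelian C] {D : Graded k C}

/-- Smooth projective schemes of dimension at most `n` and hypergraphs whose third part has `n + 2`
vertices. -/
theorem cubic_dim_frac [PerfectField k] (hf : IsFrac k) {Q : ℤ → C → Prop} (hk : Resolution k)
    (hC : Semisimple C) (hD : IsGraded D) (hQ : Stable D Q) (n : ℕ) :
    (∀ X : Sch k, SmProj X → topologicalKrullDim X.left ≤ n → ∀ i, Q i (D.H X i i)) ↔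
      ∀ (a b : ℕ) (S : Finset (Fin a × Fin b × Fin (n + 2))) (w j : ℤ),
        Q w (D.H (tripS k S) w j) := by
  have hB := bnd_pieces hC hD hQ
  constructor
  · intro h
    exact (gen_frac hf hB n).mp (of_smproj hk hB n fun X hX hd =>
      (pieces_smproj hD hQ hX).mpr (h X hX hd))
  · intro h X hX hd
    exact (pieces_smproj hD hQ hX).mp ((gen_frac hf hB n).mpr h X hX.ft hd)

/-- Additive properties of motives, dimension by dimension, and hypergraphs. -/
theorem every_dim_frac [PerfectField k] (hf : IsFrac k) {R : C → Prop} (hk : Resolution k)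
    (hC : Semisimple C) (hD : IsGraded D) [D.L.IsEquivalence] (hR : Additive R)
    (h1 : Every D.L R D.one) (n : ℕ) :
    (∀ X : Sch k, SmProj X → topologicalKrullDim X.left ≤ n → ∀ i, Every D.L R (D.H X i i)) ↔
      ∀ (a b : ℕ) (S : Finset (Fin a × Fin b × Fin (n + 2))) (w j : ℤ),
        Every D.L R (D.H (tripS k S) w j) :=
  cubic_dim_frac hf hk hC hD (stable_every hC hR h1) n

end motives

end Pool.Agent.Y691.TU
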