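import Pool.Agent.Y691.TU.Frac

/-!
# The unit motive
-/

set_option autoImplicit false

open CategoryTheory CategoryTheory.Limits AlgebraicGeometry

namespace Pool.Agent.Y691.TU

open Pool.Agent.Y116.UV Pool.Agent.Y101.Th Pool.Agent.Z125.UN

universe v u

variable {k : Type} [Field k]

lemma isEmpty_of_dim {X : Type} [TopologicalSpace X] (h : topologicalKrullDim X < 0) :
    IsEmpty X := by
  by_contra hX
  rw [not_isEmpty_iff] at hX
  obtain ⟨x⟩ := hX
  have : Nonempty (TopologicalSpace.IrreducibleCloseds X) :=
    ⟨⟨closure {x}, isIrreducible_singleton.closure, isClosed_closure⟩⟩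
  have h2 : (0 : WithBot ℕ∞) ≤ Order.krullDim (TopologicalSpace.IrreducibleCloseds X) :=
    Order.krullDim_nonneg
  exact absurd h (not_lt.mpr h2)

/-- A smooth projective scheme isomorphic to the point. -/
lemma exists_point (hk : Resolution k) : ∃ X : Sch k, SmProj X ∧
    topologicalKrullDim X.left ≤ 0 ∧ Nonempty (aff k k ≅ X) := by
  obtain ⟨w, X, Z, i, j, hw, hX, ht, h1, h2⟩ := hk k
  rw [ringKrullDim_eq_zero_of_field] at h1 h2
  have hZ := isEmpty_of_dim h2
  refine ⟨X, hX, h1, ?_⟩
  have hr : Set.range j.left = Set.univ := by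
    have h3 := ht.compl
    rw [Set.range_eq_empty] at h3
    rw [← compl_compl (Set.range j.left), ← h3, Set.compl_empty]
  have := ht.opened
  have hs : Function.Surjective j.left := Set.range_eq_univ.mp hr
  have hepi : Epi j.left.base := (TopCat.epi_iff_surjective _).mpr hs
  have hiso : IsIso j.left := IsOpenImmersion.isIso j.left
  have hjiso : IsIso j := by
    have : IsIso ((Over.forget _).map j) := hiso
    exact isIso_of_reflects_iso j (Over.forget _)
  let e : k ≃ₐ[k] Localization.Away w := IsLocalization.atUnits k (Submonoid.powers w) (by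
    rintro _ ⟨n, rfl⟩
    exact (isUnit_iff_ne_zero.mpr hw).pow n)
  exact ⟨(affIso e).symm ≪≫ asIso j⟩

variable {C : Type u} [Category.{v} C] [Abelian C] {D : Graded k C} {R : C → Prop}

/-- If the property is known for the twists of the summands of the cohomology of smooth projective
schemes of dimension zero, then it is known for the twists of the unit motive. -/
lemma every_unit (hk : Resolution k) (hD : IsGraded D)
    (h : ∀ X : Sch k, SmProj X → topologicalKrullDim X.left ≤ 0 → ∀ i,
      Every D.L R (D.H X i i)) : Every D.L R D.one := by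
  obtain ⟨X, hX, hd, e⟩ := exists_point hk
  obtain ⟨e1⟩ := hD.iso (ft_aff True) e 0 0
  obtain ⟨e2⟩ := hD.point.1
  exact every_summand (e2.inv ≫ e1.hom) (e1.inv ≫ e2.hom) (by simp) (h X hX hd 0)

end Pool.Agent.Y691.TU
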