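import Pool.Agent.Y691.TU.MeasDefs
import Pool.Agent.Y691.TU.Unit

/-!
# Multiplicative invariants of schemes and trilinear forms
-/

set_option autoImplicit false

open CategoryTheory AlgebraicGeometry

namespace Pool.Agent.Y691.TU

open Pool.Agent.Y116.UV Pool.Agent.Y101.Th Pool.Agent.Z125.UN

variable {k : Type} [Field k] {G : Type} [CommGroup G] {τ : G → G} {e : ℤ → Sch k → G}
  {S : Subgroup G}

lemma iter_mem (hτ : ∀ g, τ g ∈ S ↔ g ∈ S) (n : ℕ) (g : G) : τ^[n] g ∈ S ↔ g ∈ S := by
  induction n generalizing g with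
  | zero => exact Iff.rfl
  | succ n ih =>
    rw [Function.iterate_succ_apply, ih, hτ]

lemma inv_bundle (he : IsInvariant τ e) (hτ : ∀ g, τ g ∈ S ↔ g ∈ S) (A : Type) [CommRing A]
    [Algebra k A] [Algebra.FiniteType k A] (m : ℕ) (f : Fin m → A) (U : Sch k) (j : U ⟶ aff k A)
    (hj : IsOpenImmersion j.left)
    (hr : Set.range j.left = {x : PrimeSpectrum A | ∃ l, f l ∉ x.asIdeal}) :
    (∀ w, e w (aff k (Jou f)) ∈ S) ↔ ∀ w, e w U ∈ S := by
  constructor
  · intro h w
    have h1 := h (w + 2 * (m - 1 : ℕ))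
    rw [he.bundle A m f U j hj hr, iter_mem hτ] at h1
    exact h1
  · intro h w
    obtain ⟨w, rfl⟩ : ∃ v, w = v + 2 * ((m - 1 : ℕ) : ℤ) := ⟨w - 2 * ((m - 1 : ℕ) : ℤ), by ring⟩
    rw [he.bundle A m f U j hj hr, iter_mem hτ]
    exact h w

/-- Membership of the invariants in a subgroup satisfies the axioms `Bnd`. -/
theorem bnd_inv (he : IsInvariant τ e) (hτ : ∀ g, τ g ∈ S ↔ g ∈ S)
    (hp : ∀ w, e w (aff k k) ∈ S) : Bnd True (fun X : Sch k => ∀ w, e w X ∈ S) where
  iso hX h hP w := by
    rw [← he.iso hX h w]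
    exact hP w
  total i j hX ht hZ hU w := by
    rw [he.add i j hX ht w]
    exact S.mul_mem (hZ w) (hU w)
  opened i j hX ht hZ hXX w := by
    have h1 := hXX w
    rw [he.add i j hX ht w] at h1
    exact (S.mul_mem_cancel_left (hZ w)).mp h1
  closed i j hX ht hXX hU w := by
    have h1 := hXX w
    rw [he.add i j hX ht w] at h1
    exact (S.mul_mem_cancel_right (hU w)).mp h1
  space n w := by
    have h := inv_bundle he hτ k (n + 1) (f1 k n) (aff k k) (𝟙 _) inferInstance (range_id n)
    rw [← he.iso (ft_aff True) ⟨(affIso (jouOne k n)).symm⟩]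
    exact h.mpr hp w
  jouanolou A _ _ _ m f U j hj hr h := (inv_bundle he hτ A m f U j hj hr).mp h
  torus A _ _ _ h := by
    have key : ∀ n : ℕ, ∀ w : ℤ, w < n → e w (aff k A) ∈ S := by
      intro n
      induction n with
      | zero =>
        intro w hw
        rw [he.neg _ (ft_aff True) w (by exact_mod_cast hw)]
        exact S.one_mem
      | succ n ih =>
        intro w hw
        have h1 := he.torus A w
        have h2 : τ (e (w - 2) (aff k A)) ∈ S := (hτ _).mpr (ih _ (by push_cast at hw; omega))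
        rw [← h1] at h2
        exact (S.mul_mem_cancel_left (h w)).mp h2
    intro w
    exact key (w.natAbs + 1) w (by omega)
  bundle A _ _ _ m f U j hj hr h := (inv_bundle he hτ A m f U j hj hr).mpr h

lemma inv_point (hk : Resolution k) (he : IsInvariant τ e)
    (h : ∀ X : Sch k, SmProj X → topologicalKrullDim X.left ≤ 0 → ∀ w, e w X ∈ S) (w : ℤ) :
    e w (aff k k) ∈ S := by
  obtain ⟨X, hX, hd, hi⟩ := exists_point hk
  rw [he.iso (ft_aff True) hi]
  exact h X hX hd w

/-- Smooth projective schemes of dimension at most `n` and trilinear forms with a block of at most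
`n + 2` variables. -/
theorem inv_dim [PerfectField k] (hk : Resolution k) (he : IsInvariant τ e)
    (hτ : ∀ g, τ g ∈ S ↔ g ∈ S) (hp : ∀ w, e w (aff k k) ∈ S) (n : ℕ) :
    (∀ X : Sch k, SmProj X → topologicalKrullDim X.left ≤ n → ∀ w, e w X ∈ S) ↔
      ∀ (a b c : ℕ) (t : Fin a → Fin b → Fin c → k), (a ≤ n + 2 ∨ b ≤ n + 2 ∨ c ≤ n + 2) →
        ∀ w, e w (hypS t) ∈ S := by
  have hB := bnd_inv he hτ hp
  constructor
  · intro h a b c t hm
    exact (gen_dim hB n).mp (of_smproj hk hB n h) a b c t hm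
  · intro h X hX hd
    exact (gen_dim hB n).mpr h X hX.ft hd

/-- All smooth projective schemes and all trilinear forms. -/
theorem inv_all [PerfectField k] (hk : Resolution k) (he : IsInvariant τ e)
    (hτ : ∀ g, τ g ∈ S ↔ g ∈ S) (hp : ∀ w, e w (aff k k) ∈ S) :
    (∀ X : Sch k, SmProj X → ∀ w, e w X ∈ S) ↔
      ∀ (a b c : ℕ) (t : Fin a → Fin b → Fin c → k) (w : ℤ), e w (hypS t) ∈ S := by
  have hB := bnd_inv he hτ hp
  constructor
  · intro h a b c t
    exact (inv_dim hk he hτ hp a).mp (fun X hX _ => h X hX) a b c t (Or.inl (by omega))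
  · intro h X hX
    exact (gen_all hB.toUni).mpr h X hX.ft

/-- Smooth projective schemes of dimension at most `n` and hypergraphs whose third part has `n + 2`
vertices. -/
theorem inv_dim_frac [PerfectField k] (hf : IsFrac k) (hk : Resolution k)
    (he : IsInvariant τ e) (hτ : ∀ g, τ g ∈ S ↔ g ∈ S) (hp : ∀ w, e w (aff k k) ∈ S) (n : ℕ) :
    (∀ X : Sch k, SmProj X → topologicalKrullDim X.left ≤ n → ∀ w, e w X ∈ S) ↔
      ∀ (a b : ℕ) (H : Finset (Fin a × Fin b × Fin (n + 2))) (w : ℤ), e w (tripS k H) ∈ S := by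
  have hB := bnd_inv he hτ hp
  constructor
  · intro h
    exact (gen_frac hf hB n).mp (of_smproj hk hB n h)
  · intro h X hX hd
    exact (gen_frac hf hB n).mpr h X hX.ft hd

end Pool.Agent.Y691.TU
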