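import Pool.Agent.Y691.TU.EulDefs
import Pool.Agent.Y691.TU.Meas

/-!
# Local Euler factors and trilinear forms
-/

set_option autoImplicit false

open CategoryTheory AlgebraicGeometry

namespace Pool.Agent.Y691.TU

open Pool.Agent.Y116.UV Pool.Agent.Y101.Th Pool.Agent.Z125.UN

lemma exists_ne_prime (p : Nat.Primes) : ∃ ℓ : Nat.Primes, ℓ ≠ p := by
  by_cases h : p = ⟨2, Nat.prime_two⟩
  · refine ⟨⟨3, Nat.prime_three⟩, ?_⟩
    rw [h]
    intro h2
    have := congrArg (fun q : Nat.Primes => (q : ℕ)) h2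
    norm_num at this
  · exact ⟨⟨2, Nat.prime_two⟩, fun h2 => h h2.symm⟩

/-- The subgroup of the families with rational coefficients which do not depend on `ℓ`. -/
noncomputable def eulerSub : Subgroup EulerValues where
  carrier := {g | ∀ p, RationalIndep p (fun ℓ => (g p ℓ : PowerSeries ℚ_[ℓ]))}
  mul_mem' := by
    intro g h hg hh p
    obtain ⟨f, hf⟩ := hg p
    obtain ⟨f', hf'⟩ := hh p
    refine ⟨f * f', fun ℓ hℓ => ?_⟩
    have h1 := hf ℓ hℓ
    have h2 := hf' ℓ hℓ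
    simp only at h1 h2 ⊢
    rw [Pi.mul_apply, Pi.mul_apply, Units.val_mul, h1, h2, map_mul]
  one_mem' := by
    intro p
    exact ⟨1, fun ℓ _ => by simp⟩
  inv_mem' := by
    intro g hg p
    obtain ⟨f, hf⟩ := hg p
    obtain ⟨ℓ0, hℓ0⟩ := exists_ne_prime p
    have hc : PowerSeries.constantCoeff f ≠ 0 := by
      intro h0
      have h1 := hf ℓ0 hℓ0
      have h2 : IsUnit (PowerSeries.map (algebraMap ℚ ℚ_[ℓ0]) f) := by
        rw [← h1]
        exact Units.isUnit _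
      have h3 := h2.map (PowerSeries.constantCoeff (R := ℚ_[ℓ0]))
      rw [← PowerSeries.coeff_zero_eq_constantCoeff_apply, PowerSeries.coeff_map,
        PowerSeries.coeff_zero_eq_constantCoeff_apply, h0, map_zero] at h3
      exact not_isUnit_zero h3
    refine ⟨f⁻¹, fun ℓ hℓ => ?_⟩
    have h1 := hf ℓ hℓ
    simp only at h1 ⊢
    rw [Pi.inv_apply, Pi.inv_apply]
    rw [Units.inv_eq_of_mul_eq_one_right]
    rw [h1, ← map_mul, PowerSeries.mul_inv_cancel _ hc, map_one]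

lemma mem_eulerSub (g : EulerValues) :
    g ∈ eulerSub ↔ ∀ p, RationalIndep p (fun ℓ => (g p ℓ : PowerSeries ℚ_[ℓ])) := Iff.rfl

lemma rescale_map {ℓ : Nat.Primes} (a : ℚ) (f : PowerSeries ℚ) :
    PowerSeries.rescale (algebraMap ℚ ℚ_[ℓ] a) (PowerSeries.map (algebraMap ℚ ℚ_[ℓ]) f) =
      PowerSeries.map (algebraMap ℚ ℚ_[ℓ]) (PowerSeries.rescale a f) := by
  ext n
  simp [PowerSeries.coeff_rescale]

lemma twist_mem (g : EulerValues) : eulerTwist g ∈ eulerSub ↔ g ∈ eulerSub := by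
  rw [mem_eulerSub, mem_eulerSub]
  refine forall_congr' fun p => ?_
  have hp : ((p : ℕ) : ℚ) ≠ 0 := by exact_mod_cast p.2.ne_zero
  constructor
  · rintro ⟨f, hf⟩
    refine ⟨PowerSeries.rescale ((p : ℕ) : ℚ)⁻¹ f, fun ℓ hℓ => ?_⟩
    have h1 := hf ℓ hℓ
    have h2 : PowerSeries.rescale ((p : ℕ) : ℚ_[ℓ]) (g p ℓ : PowerSeries ℚ_[ℓ]) =
        PowerSeries.map (algebraMap ℚ ℚ_[ℓ]) f := h1
    rw [← rescale_map, ← h2]
    simp only [map_inv₀, map_natCast]
    rw [PowerSeries.rescale_rescale, mul_inv_cancel₀ (by exact_mod_cast p.2.ne_zero)]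
    simp
  · rintro ⟨f, hf⟩
    refine ⟨PowerSeries.rescale ((p : ℕ) : ℚ) f, fun ℓ hℓ => ?_⟩
    have h1 := hf ℓ hℓ
    change PowerSeries.rescale ((p : ℕ) : ℚ_[ℓ]) (g p ℓ : PowerSeries ℚ_[ℓ]) = _
    rw [← rescale_map, ← h1]
    simp only [map_natCast]

variable {P : ℕ → Sch ℚ → ∀ _ ℓ : Nat.Primes, Polynomial ℚ_[ℓ]} {E : ℤ → Sch ℚ → EulerValues}

lemma euler_smooth (h : IsEuler P E) {X : Sch ℚ} (hX : SmProj X) :
    (∀ w, E w X ∈ eulerSub) ↔ ∀ i p, IntegralIndep p (P i X p) := by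
  constructor
  · intro hS i p
    obtain ⟨f, hf⟩ := hS i p
    obtain ⟨ℓ0, hℓ0⟩ := exists_ne_prime p
    have h1 : ∀ ℓ : Nat.Primes, ℓ ≠ p → ∀ n,
        (P i X p ℓ).coeff n = algebraMap ℚ ℚ_[ℓ] (PowerSeries.coeff n f) := by
      intro ℓ hℓ n
      have h2 := hf ℓ hℓ
      simp only at h2
      rw [h.smooth X hX i p ℓ hℓ] at h2
      have h3 := congrArg (PowerSeries.coeff n) h2
      rw [Polynomial.coeff_coe, PowerSeries.coeff_map] at h3
      exact h3
    have h4 : ∀ n, ∃ z : ℤ, (z : ℚ) = PowerSeries.coeff n f := by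
      intro n
      have h5 := h.integral X hX i p ℓ0 hℓ0 n
      rw [h1 ℓ0 hℓ0 n] at h5
      have h6 : IsIntegral ℤ (PowerSeries.coeff n f) :=
        (isIntegral_algebraMap_iff (algebraMap ℚ ℚ_[ℓ0]).injective).mp h5
      obtain ⟨z, hz⟩ := IsIntegrallyClosed.isIntegral_iff.mp h6
      exact ⟨z, by simpa using hz⟩
    choose a ha using h4
    refine ⟨∑ n ∈ Finset.range ((P i X p ℓ0).natDegree + 1), Polynomial.monomial n (a n),
      fun ℓ hℓ => ?_⟩
    ext n
    rw [h1 ℓ hℓ n, Polynomial.coeff_map, Polynomial.finsetSum_coeff]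
    simp only [Polynomial.coeff_monomial]
    rw [Finset.sum_ite_eq']
    split_ifs with hn
    · rw [← ha n]
      simp
    · have h7 : (P i X p ℓ0).coeff n = 0 := by
        apply Polynomial.coeff_eq_zero_of_natDegree_lt
        simpa using hn
      rw [h1 ℓ0 hℓ0 n] at h7
      have h8 : PowerSeries.coeff n f = 0 :=
        (map_eq_zero_iff _ (algebraMap ℚ ℚ_[ℓ0]).injective).mp h7
      rw [h8, map_zero, map_zero]
  · intro hI w
    rcases lt_or_ge w 0 with hw | hw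
    · rw [h.inv.neg X hX.ft w hw]
      exact eulerSub.one_mem
    · obtain ⟨i, rfl⟩ := Int.eq_ofNat_of_zero_le hw
      rw [mem_eulerSub]
      intro p
      obtain ⟨f, hf⟩ := hI i p
      refine ⟨((f.map (algebraMap ℤ ℚ) : Polynomial ℚ) : PowerSeries ℚ), fun ℓ hℓ => ?_⟩
      simp only
      rw [h.smooth X hX i p ℓ hℓ, hf ℓ hℓ]
      ext n
      rw [Polynomial.coeff_coe, PowerSeries.coeff_map, Polynomial.coeff_coe,
        Polynomial.coeff_map, Polynomial.coeff_map]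
      simp

end Pool.Agent.Y691.TU
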