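import Pool.Agent.Y691.TU.GdDefs
import Pool.Agent.Y691.TU.Unit

/-!
# The conjecture of Gross and Deligne for simple objects
-/

set_option autoImplicit false

open CategoryTheory CategoryTheory.Limits AlgebraicGeometry

namespace Pool.Agent.Y691.TU

universe v u

variable {C : Type u} [Category.{v} C] [Abelian C] {HasCM : CMData C}

lemma gd_iso (hCM : ∀ A B : C, Nonempty (A ≅ B) → ∀ d p P, HasCM B d p P → HasCM A d p P)
    (A B : C) (h : Nonempty (A ≅ B)) (hA : GDSimple HasCM A) : GDSimple HasCM B := by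
  intro hB d _ p P hP
  obtain ⟨e⟩ := h
  have hA' : Simple A := Simple.of_iso e
  exact hA hA' d p P (hCM A B ⟨e⟩ d p P hP)

/-- The conjecture for simple objects is an additive property. -/
lemma additive_gd (hCM : ∀ A B : C, Nonempty (A ≅ B) → ∀ d p P, HasCM B d p P → HasCM A d p P) :
    Additive (GDSimple HasCM) where
  iso := gd_iso hCM
  zero A h := fun hA => absurd h (Simple.not_isZero A)
  sum A B hA hB := by
    intro hAB
    by_cases h : (biprod.inl : A ⟶ A ⊞ B) = 0
    · have h1 : 𝟙 A = 0 := by rw [← biprod.inl_fst (X := A) (Y := B), h, zero_comp]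
      have hz : IsZero A := (IsZero.iff_id_eq_zero A).mpr h1
      have hs : IsIso (biprod.inr : B ⟶ A ⊞ B) := by
        refine ⟨biprod.snd, biprod.inr_snd, ?_⟩
        rw [← biprod.total (X := A) (Y := B), h, comp_zero, zero_add]
      exact gd_iso hCM B _ ⟨asIso (biprod.inr : B ⟶ A ⊞ B)⟩ hB hAB
    · have hs : IsIso (biprod.inl : A ⟶ A ⊞ B) := isIso_of_mono_of_nonzero h
      exact gd_iso hCM A _ ⟨asIso (biprod.inl : A ⟶ A ⊞ B)⟩ hA hAB

end Pool.Agent.Y691.TU
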