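import Pool.Agent.Y691.TU.DelDefs
import Pool.Agent.Y691.TU.Frac

/-!
# Deligne's conjecture is an additive property
-/

set_option autoImplicit false

open CategoryTheory CategoryTheory.Limits AlgebraicGeometry TensorProduct

namespace Pool.Agent.Y691.TU

universe v u

section alg

variable {E : Type} [Field E] [Algebra ℚ E]

lemma tm_mul (a b : E) : (a ⊗ₜ[ℚ] (1 : ℂ)) * (b ⊗ₜ[ℚ] (1 : ℂ)) = (a * b) ⊗ₜ[ℚ] (1 : ℂ) := by
  rw [Algebra.TensorProduct.tmul_mul_tmul, mul_one]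

lemma tm_inv {a : E} (ha : a ≠ 0) : (a⁻¹ ⊗ₜ[ℚ] (1 : ℂ)) * (a ⊗ₜ[ℚ] (1 : ℂ)) = 1 := by
  rw [tm_mul, inv_mul_cancel₀ ha]
  rfl

lemma solve {e : E} (he : e ≠ 0) {x y : E ⊗[ℚ] ℂ} (h : x = (e ⊗ₜ[ℚ] (1 : ℂ)) * y) :
    y = (e⁻¹ ⊗ₜ[ℚ] (1 : ℂ)) * x := by
  rw [h, ← mul_assoc, tm_inv he, one_mul]

lemma pw_add (z : ℂ) (hz : z ≠ 0) (a b : ℤ) : ((1 : E) ⊗ₜ[ℚ] (z ^ (a + b))) =
    ((1 : E) ⊗ₜ[ℚ] (z ^ a)) * ((1 : E) ⊗ₜ[ℚ] (z ^ b)) := by
  rw [Algebra.TensorProduct.tmul_mul_tmul, one_mul, zpow_add₀ hz]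

end alg

section

variable {k : Type} [Field k] {E : Type} [Field E] [Algebra ℚ E] {C : Type u} [Category.{v} C]
  [Abelian C] {T : Values E C} {D : Graded k C}

lemma two_pi_I_ne : (2 * Real.pi * Complex.I : ℂ) ≠ 0 := by
  simp [Real.pi_ne_zero, Complex.I_ne_zero]

lemma admissible_iso (hT : IsValues T D) {A B : C} (h : Nonempty (A ≅ B))
    (hB : Admissible T B) : Admissible T A := by
  have h1 := hT.hodge_iso A B h
  obtain ⟨⟨w, hw⟩, hp⟩ := hB
  exact ⟨⟨w, fun p q hpq => hw p q (by rw [← h1]; exact hpq)⟩, fun p => by rw [h1]; exact hp p⟩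

lemma deligne_iso (hT : IsValues T D) (A B : C) (h : Nonempty (A ≅ B)) (hA : Deligne T A) :
    Deligne T B := by
  intro hB m hm
  have h1 := hT.hodge_iso A B h
  have hA' : Admissible T A := admissible_iso hT h hB
  obtain ⟨h2, h3, h4⟩ := hT.iso A B h hA'
  have hmA : IsCritical T A m := fun p q hpq hh => by
    rw [h1] at hh
    exact hm p q hpq hh
  obtain ⟨e, he⟩ := hA hA' m hmA
  obtain ⟨e', he', h5⟩ := h4 m.negOnePow
  refine ⟨e * e'⁻¹, ?_⟩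
  rw [← h3 m hmA, he, ← h2, solve he' h5, ← tm_mul]
  ring

lemma deligne_zero (hT : IsValues T D) (A : C) (h : IsZero A) : Deligne T A := by
  obtain ⟨h2, h3, h4⟩ := hT.zero A h
  intro _ m _
  obtain ⟨e', he', h5⟩ := h4 m.negOnePow
  refine ⟨e'⁻¹, ?_⟩
  rw [h3, h2, h5, Nat.cast_zero, mul_zero, zpow_zero]
  have h6 : ((1 : E) ⊗ₜ[ℚ] (1 : ℂ)) = 1 := rfl
  rw [h6, mul_one, tm_inv he']

lemma deligne_sum (hT : IsValues T D) (A B : C) (hA : Deligne T A) (hB : Deligne T B) :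
    Deligne T (A ⊞ B) := by
  have h1 := hT.hodge_sum A B
  intro hAB m hm
  obtain ⟨h2, h3, h4⟩ := hT.sum A B hAB
  obtain ⟨⟨w, hw⟩, hp⟩ := hAB
  have hp2 : ∀ p, T.hodge A p p = 0 ∧ T.hodge B p p = 0 := by
    intro p
    have := hp p
    rw [h1] at this
    omega
  have hcA : IsCritical T A m := fun p q hpq hh => hm p q hpq (by rw [h1]; omega)
  have hcB : IsCritical T B m := fun p q hpq hh => hm p q hpq (by rw [h1]; omega)
  have haA : Admissible T A := ⟨⟨w, fun p q hh => hw p q (by rw [h1]; omega)⟩,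
    fun p => (hp2 p).1⟩
  have haB : Admissible T B := ⟨⟨w, fun p q hh => hw p q (by rw [h1]; omega)⟩,
    fun p => (hp2 p).2⟩
  obtain ⟨a, ha⟩ := hA haA m hcA
  obtain ⟨b, hb⟩ := hB haB m hcB
  obtain ⟨e', he', h5⟩ := h4 m.negOnePow
  rw [mul_assoc] at h5
  refine ⟨a * b * e'⁻¹, ?_⟩
  rw [h3 m hm, ha, hb, h2]
  have h6 := solve he' h5
  have h7 : ((1 : E) ⊗ₜ[ℚ] ((2 * Real.pi * Complex.I : ℂ) ^
      (m * ((T.dim A m.negOnePow + T.dim B m.negOnePow : ℕ) : ℤ)))) =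
      ((1 : E) ⊗ₜ[ℚ] ((2 * Real.pi * Complex.I : ℂ) ^ (m * (T.dim A m.negOnePow : ℤ)))) *
      ((1 : E) ⊗ₜ[ℚ] ((2 * Real.pi * Complex.I : ℂ) ^ (m * (T.dim B m.negOnePow : ℤ)))) := by
    rw [← pw_add _ two_pi_I_ne]
    congr 2
    push_cast
    ring
  rw [h7, ← tm_mul, ← tm_mul]
  linear_combination ((a ⊗ₜ[ℚ] (1 : ℂ)) * (b ⊗ₜ[ℚ] (1 : ℂ)) *
    ((1 : E) ⊗ₜ[ℚ] ((2 * Real.pi * Complex.I : ℂ) ^ (m * (T.dim A m.negOnePow : ℤ)))) *
      ((1 : E) ⊗ₜ[ℚ] ((2 * Real.pi * Complex.I : ℂ) ^ (m * (T.dim B m.negOnePow : ℤ))))) * h6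

/-- Deligne's conjecture is an additive property. -/
lemma additive_deligne (hT : IsValues T D) : Additive (Deligne T) where
  iso := deligne_iso hT
  zero := deligne_zero hT
  sum := deligne_sum hT

/-- a direct summand of `A` has smaller Hodge numbers -/
lemma hodge_summand (hT : IsValues T D) {A B : C} (s : B ⟶ A) (r : A ⟶ B) (h : s ≫ r = 𝟙 B)
    (p q : ℤ) : T.hodge B p q ≤ T.hodge A p q := by
  have hm : Mono s := mono_of_mono_fac h
  let S : ShortComplex C := ShortComplex.mk s (cokernel.π s) (cokernel.condition s)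
  have hS : S.Exact := ShortComplex.exact_of_g_is_cokernel S (cokernelIsCokernel s)
  have hepi : Epi S.g := inferInstanceAs (Epi (cokernel.π s))
  have e : A ≅ B ⊞ cokernel s :=
    (ShortComplex.Splitting.ofExactOfRetraction S hS r h hepi).isoBinaryBiproduct
  rw [hT.hodge_iso A _ ⟨e⟩, hT.hodge_sum B _]
  omega

lemma hodge_tw (hT : IsValues T D) (A : C) (p q : ℤ) :
    ∀ n : ℕ, T.hodge (tw D.L n A) (p + n) (q + n) = T.hodge A p q
  | 0 => by
    have h : ∀ x : ℤ, x + ((0 : ℕ) : ℤ) = x := fun x => by simp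
    rw [h, h]
    rfl
  | n + 1 => by
    have h : ∀ x : ℤ, x + ((n + 1 : ℕ) : ℤ) = (x + n) + 1 := fun x => by push_cast; ring
    rw [h, h]
    exact (hT.twist _ _ _).trans (hodge_tw hT A p q n)

lemma hodge_isTwist (hT : IsValues T D) {B B' : C} (h : IsTwist D.L B B') :
    ∃ r : ℤ, ∀ p q, T.hodge B' p q = T.hodge B (p + r) (q + r) := by
  obtain ⟨a, b, e⟩ := h
  refine ⟨a - b, fun p q => ?_⟩
  have h1 := hT.hodge_iso _ _ e (p + a) (q + a)
  rw [hodge_tw hT] at h1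
  have h2 := hodge_tw hT B (p + (a - b)) (q + (a - b)) b
  rw [h1, ← h2]
  congr 1 <;> ring

/-- Deligne's conjecture is empty for the Tate motives. -/
lemma deligne_unit (hT : IsValues T D) : Every D.L (Deligne T) D.one := by
  intro B B' s r h ht hB'
  obtain ⟨n, hn⟩ := hodge_isTwist hT ht
  have h1 : ∀ p q, T.hodge B' p q = 0 := by
    intro p q
    by_cases hpq : p = q
    · rw [hpq]
      exact hB'.2 q
    · rw [hn]
      have h2 := hodge_summand hT s r h (p + n) (q + n)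
      rw [hT.unit _ _ (by omega)] at h2
      omega
  exact deligne_zero hT B' (hT.faithful B' h1) hB'

end

end Pool.Agent.Y691.TU
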