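import Pool.Agent.Y691.TU.RatioDefs
import Pool.Agent.Y691.TU.Del

/-!
# Ratios of successive critical values
-/

set_option autoImplicit false

open CategoryTheory CategoryTheory.Limits AlgebraicGeometry TensorProduct

namespace Pool.Agent.Y691.TU

universe v u

variable {k : Type} [Field k] {E : Type} [Field E] [Algebra ℚ E] {C : Type u} [Category.{v} C]
  [Abelian C] {T : Completed E C} {D : Graded k C} {d : ℕ} {Δ : ℂ}

lemma ratio_iso (hT : IsCompleted T D) (A B : C) (h : Nonempty (A ≅ B))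
    (hA : RatioConjecture T d Δ A) : RatioConjecture T d Δ B := by
  intro hB m hm hm' hu
  obtain ⟨h0, h1⟩ := hT.hodge_iso A B h
  obtain ⟨⟨w, hw⟩, hp⟩ := hB
  have hA' : NoMiddle T A := ⟨⟨w, fun p q hpq => hw p q (by rw [← h1]; exact hpq)⟩,
    fun p => by rw [h1]; exact hp p⟩
  have hc : ∀ j, CriticalInteger T B j → CriticalInteger T A j := fun j hj p q hpq hh =>
    hj p q hpq (by rw [← h1]; exact hh)
  have e1 := hT.iso A B h hA' m (hc m hm)
  have e2 := hT.iso A B h hA' (m + 1) (hc _ hm')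
  rw [← e1, ← e2, ← h0]
  exact hA hA' m (hc m hm) (hc _ hm') (by rw [e2]; exact hu)

lemma ratio_zero (hT : IsCompleted T D) (A : C) (h : IsZero A) : RatioConjecture T d Δ A := by
  intro _ m _ _ _
  obtain ⟨h0, h1⟩ := hT.zero A h
  refine ⟨1, one_ne_zero, ?_⟩
  rw [h1, h1, h0, pow_zero, mul_one, mul_one]
  rfl

lemma ratio_sum (hT : IsCompleted T D) (A B : C) (hA : RatioConjecture T d Δ A)
    (hB : RatioConjecture T d Δ B) : RatioConjecture T d Δ (A ⊞ B) := by
  obtain ⟨h0, h1⟩ := hT.hodge_sum A B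
  intro hAB m hm hm' hu
  have hL := hT.sum A B hAB
  obtain ⟨⟨w, hw⟩, hp⟩ := hAB
  have hp2 : ∀ p, T.hodge A p p = 0 ∧ T.hodge B p p = 0 := by
    intro p
    have := hp p
    rw [h1] at this
    omega
  have hcA : ∀ j, CriticalInteger T (A ⊞ B) j → CriticalInteger T A j := fun j hj p q hpq hh =>
    hj p q hpq (by rw [h1]; omega)
  have hcB : ∀ j, CriticalInteger T (A ⊞ B) j → CriticalInteger T B j := fun j hj p q hpq hh =>
    hj p q hpq (by rw [h1]; omega)
  have haA : NoMiddle T A := ⟨⟨w, fun p q hh => hw p q (by rw [h1]; omega)⟩,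
    fun p => (hp2 p).1⟩
  have haB : NoMiddle T B := ⟨⟨w, fun p q hh => hw p q (by rw [h1]; omega)⟩,
    fun p => (hp2 p).2⟩
  rw [hL (m + 1) hm'] at hu
  obtain ⟨a, ha0, ha⟩ := hA haA m (hcA m hm) (hcA _ hm') (isUnit_of_mul_isUnit_left hu)
  obtain ⟨b, hb0, hb⟩ := hB haB m (hcB m hm) (hcB _ hm') (isUnit_of_mul_isUnit_right hu)
  refine ⟨a * b, mul_ne_zero ha0 hb0, ?_⟩
  rw [hL m hm, hL (m + 1) hm', ha, hb, h0, pow_add, ← tm_mul]
  ring

/-- The conjecture on successive critical values is an additive property. -/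
lemma additive_ratio (hT : IsCompleted T D) : Additive (RatioConjecture T d Δ) where
  iso := ratio_iso hT
  zero := ratio_zero hT
  sum := ratio_sum hT

/-- a direct summand of `A` has smaller Hodge numbers -/
lemma hodge_summand'' (hT : IsCompleted T D) {A B : C} (s : B ⟶ A) (r : A ⟶ B)
    (h : s ≫ r = 𝟙 B) (p q : ℤ) : T.hodge B p q ≤ T.hodge A p q := by
  have hm : Mono s := mono_of_mono_fac h
  let S : ShortComplex C := ShortComplex.mk s (cokernel.π s) (cokernel.condition s)
  have hS : S.Exact := ShortComplex.exact_of_g_is_cokernel S (cokernelIsCokernel s)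
  have hepi : Epi S.g := inferInstanceAs (Epi (cokernel.π s))
  have e : A ≅ B ⊞ cokernel s :=
    (ShortComplex.Splitting.ofExactOfRetraction S hS r h hepi).isoBinaryBiproduct
  rw [(hT.hodge_iso A _ ⟨e⟩).2, (hT.hodge_sum B _).2]
  omega

lemma hodge_tw'' (hT : IsCompleted T D) (A : C) (p q : ℤ) :
    ∀ n : ℕ, T.hodge (tw D.L n A) (p + n) (q + n) = T.hodge A p q
  | 0 => by
    have h : ∀ x : ℤ, x + ((0 : ℕ) : ℤ) = x := fun x => by simp
    rw [h, h]
    rfl
  | n + 1 => by
    have h : ∀ x : ℤ, x + ((n + 1 : ℕ) : ℤ) = (x + n) + 1 := fun x => by push_cast; ring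
    rw [h, h]
    exact (hT.twist _ _ _).trans (hodge_tw'' hT A p q n)

/-- The conjecture is empty for the Tate motives. -/
lemma ratio_unit (hT : IsCompleted T D) : Every D.L (RatioConjecture T d Δ) D.one := by
  intro B B' s r h ht hB'
  obtain ⟨a, b, e⟩ := ht
  have hn : ∀ p q, T.hodge B' p q = T.hodge B (p + (a - b)) (q + (a - b)) := by
    intro p q
    have h1 := (hT.hodge_iso _ _ e).2 (p + a) (q + a)
    rw [hodge_tw'' hT] at h1
    have h2 := hodge_tw'' hT B (p + (a - b)) (q + (a - b)) b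
    rw [h1, ← h2]
    congr 1 <;> ring
  have h1 : ∀ p q, T.hodge B' p q = 0 := by
    intro p q
    by_cases hpq : p = q
    · rw [hpq]
      exact hB'.2 q
    · rw [hn]
      have h2 := hodge_summand'' hT s r h (p + (a - b)) (q + (a - b))
      rw [hT.unit _ _ (by omega)] at h2
      omega
  exact ratio_zero hT B' (hT.faithful B' h1) hB'

end Pool.Agent.Y691.TU
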