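import Pool.Agent.Y691.TU.Bnd

/-!
# Smooth projective schemes and trilinear forms
-/

set_option autoImplicit false

open CategoryTheory CategoryTheory.Limits AlgebraicGeometry

namespace Pool.Agent.Y691.TU

open Pool.Agent.Y116.UV Pool.Agent.Y101.Th Pool.Agent.Z125.UN

universe v u

section dim

lemma lt_succ_iff (x : WithBot ℕ∞) (m : ℕ) :
    x < ((m + 1 : ℕ) : WithBot ℕ∞) ↔ x ≤ ((m : ℕ) : WithBot ℕ∞) := by
  induction x using WithBot.recBotCoe with
  | bot =>
    refine ⟨fun _ => bot_le, fun _ => ?_⟩
    exact WithBot.bot_lt_coe _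
  | coe y =>
    have h1 : ((m + 1 : ℕ) : WithBot ℕ∞) = ((m + 1 : ℕ∞) : WithBot ℕ∞) := by push_cast; rfl
    have h2 : ((m : ℕ) : WithBot ℕ∞) = ((m : ℕ∞) : WithBot ℕ∞) := rfl
    rw [h1, h2, WithBot.coe_lt_coe, WithBot.coe_le_coe]
    exact ENat.lt_add_one_iff (ENat.coe_ne_top m)

variable {k : Type} [Field k] {P : Sch k → Prop}

/-- From affine schemes of dimension less than `d` to all schemes of dimension less than `d`. -/
lemma of_affine_lt (hP : Bnd True P) {d : WithBot ℕ∞} (h : ∀ (A : Type) [CommRing A] [Algebra k A]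
    [Algebra.FiniteType k A], ringKrullDim A < d → P (aff k A)) (X : Sch k) (hX : FT True X)
    (hn : topologicalKrullDim X.left < d) : P X := by
  refine of_affine' (P := fun X => topologicalKrullDim X.left < d → P X) (sep := True) ?_ ?_ ?_ X
    hX hn
  · intro X Y hX e hPX hY
    refine hP.iso hX e (hPX ?_)
    obtain ⟨e⟩ := e
    let f := (Over.forget _).mapIso e
    exact (Topology.IsInducing.topologicalKrullDim_le
      (Scheme.homeoOfIso f).isInducing).trans_lt hY
  · intro Z X U i j hX ht hZ hU hn
    refine hP.total i j hX ht (hZ ?_) (hU ?_)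
    · have h1 := (have := ht.closed; i.left.isClosedEmbedding.isInducing)
      exact h1.topologicalKrullDim_le.trans_lt hn
    · have h1 := (have := ht.opened; j.left.isOpenEmbedding.isInducing)
      exact h1.topologicalKrullDim_le.trans_lt hn
  · intro A _ _ _ hA
    rw [topDim_aff] at hA
    exact h A hA

lemma ft_closed {Z X : Sch k} (i : Z ⟶ X) (hi : IsClosedImmersion i.left) (hX : FT True X) :
    FT True Z where
  locallyOfFiniteType := by
    have := hX.locallyOfFiniteType
    rw [← Over.w i]
    infer_instance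
  quasiCompact := by
    have := hX.quasiCompact
    rw [← Over.w i]
    infer_instance
  separated h := by
    have := hX.separated h
    rw [← Over.w i]
    infer_instance

/-- Resolution of singularities: smooth projective schemes of dimension at most `n` are
sufficient. -/
theorem of_smproj (hk : Resolution k) (hP : Bnd True P) (n : ℕ)
    (h : ∀ X : Sch k, SmProj X → topologicalKrullDim X.left ≤ n → P X) :
    ∀ X : Sch k, FT True X → topologicalKrullDim X.left ≤ n → P X := by
  have key : ∀ m : ℕ, m ≤ n + 1 → ∀ X : Sch k, FT True X → topologicalKrullDim X.left < m →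
      P X := by
    intro m
    induction m with
    | zero =>
      intro _ X hX hd
      refine of_affine_lt hP (d := ((0 : ℕ) : WithBot ℕ∞)) ?_ X hX (by exact_mod_cast hd)
      intro A _ _ _ hA
      refine p_empty hP A ?_
      rw [← not_nontrivial_iff_subsingleton]
      intro hA'
      have := ringKrullDim_nonneg_of_nontrivial (R := A)
      exact absurd hA (not_lt.mpr (by exact_mod_cast this))
    | succ m ih =>
      intro hm X hX hd
      refine of_affine_lt hP (d := ((m + 1 : ℕ) : WithBot ℕ∞)) ?_ X hX hd
      intro A _ _ _ hA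
      refine noeth hP (fun B _ _ hB => p_empty hP B hB) fun p hp => ?_
      obtain ⟨w, X', Z, i, j, hw, hX', ht, h1, h2⟩ := hk (A ⧸ p)
      have h3 : ringKrullDim (A ⧸ p) < ((m + 1 : ℕ) : WithBot ℕ∞) :=
        (ringKrullDim_quotient_le p).trans_lt hA
      have h4 : ringKrullDim (A ⧸ p) ≤ ((m : ℕ) : WithBot ℕ∞) := by
        exact (lt_succ_iff _ _).mp h3
      refine ⟨w, hw, hP.opened i j hX'.ft ht ?_ (h X' hX' (h1.trans (h4.trans ?_)))⟩
      · exact ih (by omega) Z (ft_closed i ht.closed hX'.ft) (h2.trans_le h4)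
      · exact_mod_cast (by omega : m ≤ n)
  intro X hX hd
  exact key (n + 1) le_rfl X hX ((lt_succ_iff _ _).mpr hd)

end dim

section

variable {k : Type} [Field k] {C : Type u} [Category.{v} C] [Abelian C] {D : Graded k C}
  {Q : ℤ → C → Prop}

lemma pieces_smproj (hD : IsGraded D) (hQ : Stable D Q) {X : Sch k} (hX : SmProj X) :
    Pieces D Q X ↔ ∀ n, Q n (D.H X n n) := by
  constructor
  · intro h n
    exact h n n
  · intro h w n
    by_cases hw : w = n
    · subst hw
      exact h w
    · exact hQ.zero _ _ (hD.pure X hX w n hw)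

/-- Smooth projective schemes of dimension at most `n` and trilinear forms with a block of at most
`n + 2` variables. -/
theorem cubic_dim [PerfectField k] (hk : Resolution k) (hC : Semisimple C) (hD : IsGraded D)
    (hQ : Stable D Q) (n : ℕ) :
    (∀ X : Sch k, SmProj X → topologicalKrullDim X.left ≤ n → ∀ i, Q i (D.H X i i)) ↔
      ∀ (a b c : ℕ) (t : Fin a → Fin b → Fin c → k), (a ≤ n + 2 ∨ b ≤ n + 2 ∨ c ≤ n + 2) →
        ∀ w j, Q w (D.H (hypS t) w j) := by
  have hB := bnd_pieces hC hD hQ
  constructor
  · intro h a b c t hm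
    exact (gen_dim hB n).mp (of_smproj hk hB n fun X hX hd =>
      (pieces_smproj hD hQ hX).mpr (h X hX hd)) a b c t hm
  · intro h X hX hd
    exact (pieces_smproj hD hQ hX).mp ((gen_dim hB n).mpr h X hX.ft hd)

/-- All smooth projective schemes and all trilinear forms. -/
theorem cubic_all [PerfectField k] (hk : Resolution k) (hC : Semisimple C) (hD : IsGraded D)
    (hQ : Stable D Q) :
    (∀ X : Sch k, SmProj X → ∀ i, Q i (D.H X i i)) ↔
      ∀ (a b c : ℕ) (t : Fin a → Fin b → Fin c → k) (w j : ℤ), Q w (D.H (hypS t) w j) := by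
  have hB := bnd_pieces hC hD hQ
  constructor
  · intro h a b c t
    exact (cubic_dim hk hC hD hQ a).mp (fun X hX _ => h X hX) a b c t (Or.inl (by omega))
  · intro h X hX
    exact (pieces_smproj hD hQ hX).mp ((gen_all hB.toUni).mpr h X hX.ft)

/-- Forms with coefficients `0` and `1` over a field of fractions of integers. -/
theorem cubic_frac [PerfectField k] (hf : IsFrac k) (hk : Resolution k) (hC : Semisimple C)
    (hD : IsGraded D) (hQ : Stable D Q) :
    (∀ X : Sch k, SmProj X → ∀ i, Q i (D.H X i i)) ↔
      ∀ (a b c : ℕ) (S : Finset (Fin a × Fin b × Fin c)) (w j : ℤ), Q w (D.H (tripS k S) w j) := by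
  have hB := bnd_pieces hC hD hQ
  constructor
  · intro h a b c S
    have h2 : ∀ X : Sch k, FT True X → Pieces D Q X := by
      refine (gen_all hB.toUni).mpr ?_
      intro a b c t
      exact (cubic_all hk hC hD hQ).mp h a b c t
    refine h2 _ ?_
    have : Algebra.FiniteType k (Trip k S) :=
      Algebra.FiniteType.trans (S := MvPolynomial (Fin a ⊕ (Fin b ⊕ Fin c)) k) inferInstance
        inferInstance
    exact ft_aff True
  · intro h X hX
    exact (pieces_smproj hD hQ hX).mp (universal_frac hf hB.toUni h X hX.ft)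

end

/-- The rational numbers are fractions of integers. -/
lemma isFrac_rat : IsFrac ℚ := by
  intro x
  refine ⟨x.den, x.num, ?_, ?_⟩
  · rw [isUnit_iff_ne_zero]
    exact_mod_cast x.den_ne_zero
  · push_cast
    rw [mul_comm]
    exact Rat.mul_den_eq_num x

end Pool.Agent.Y691.TU
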