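import Pool.Agent.Y101.Th.PairDefs

/-!
# Weight graded cohomology with compact supports in a semisimple category of pure motives:
definitions
-/

set_option autoImplicit false

open CategoryTheory CategoryTheory.Limits AlgebraicGeometry

namespace Pool.Agent.Y691.TU

open Pool.Agent.Y116.UV Pool.Agent.Y101.Th

universe v u

/-- Every subobject is a direct summand. -/
def Semisimple (C : Type u) [Category.{v} C] : Prop :=
  ∀ (A B : C) (f : A ⟶ B), Mono f → ∃ r : B ⟶ A, f ≫ r = 𝟙 A

/-- The sequence `A → B → B'` is exact at `B`. -/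
def ExactAt {C : Type u} [Category.{v} C] [Abelian C] {A B B' : C} (f : A ⟶ B) (g : B ⟶ B') :
    Prop :=
  ∃ h : f ≫ g = 0, (ShortComplex.mk f g h).Exact

/-- Resolution of singularities and compactification, in the following form: for every integral affine
scheme `Spec A` of finite type over `k` there are a nonempty basic open subset `Spec A_w`, a smooth
projective scheme `X` over `k`, an open immersion `j` of `Spec A_w` into `X` and a closed immersion
`i : Z → X` onto the complement of its image, with `dim X ≤ dim A` and `dim Z < dim A`. -/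
def Resolution (k : Type) [Field k] : Prop :=
  ∀ (A : Type) [CommRing A] [IsDomain A] [Algebra k A] [Algebra.FiniteType k A],
    ∃ (w : A) (X Z : Sch k) (i : Z ⟶ X) (j : aff k (Localization.Away w) ⟶ X),
      w ≠ 0 ∧ SmProj X ∧ IsTriple i j ∧ topologicalKrullDim X.left ≤ ringKrullDim A ∧
        topologicalKrullDim Z.left < ringKrullDim A

/-- Data: `H X w j` is the graded piece of weight `w` of the cohomology with compact supports of degree
`j` of the scheme `X`, an object of the category `C` of pure motives; `L` is the Tate twist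
`A ↦ A(-1)` and `one` is the unit motive. -/
structure Graded (k : Type) [Field k] (C : Type u) [Category.{v} C] where
  H : Sch k → ℤ → ℤ → C
  L : C ⥤ C
  one : C

/-- The Tate twist `A ↦ A(-n)`. -/
def tw {C : Type u} [Category.{v} C] (L : C ⥤ C) : ℕ → C → C
  | 0, A => A
  | n + 1, A => L.obj (tw L n A)

variable {k : Type} [Field k] {C : Type u} [Category.{v} C] [Abelian C]

/-- Known properties of the weight graded pieces `H X w j = gr^W_w H^j_c(X)` (for instance as motives
for absolute Hodge cycles or as motivated motives over a field `k` of characteristic zero):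

* `iso`: isomorphic schemes have isomorphic pieces;
* `localization`: for a closed subscheme `Z` of `X` with the complement `U` the sequence
  `… → H U w n → H X w n → H Z w n → H U w (n + 1) → …` is exact for every weight `w`;
* `bundle`: for the affine bundle `Spec A[w_1, …, w_m] / (∑ f_l w_l - 1) → U` with fibre `𝔸^(m-1)`,
  where `U` is the complement of `f = 0` in `Spec A`, the pieces of the total space are those of `U`
  twisted by `-(m-1)`, in the degree and the weight shifted by `2(m-1)`;
* `torus`: `H X w n` is a direct summand of `H (X × 𝔾_m) w (n + 1)`;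
* `point`: the pieces of `Spec k` are zero, except for the unit motive in degree zero and weight zero;
* `pure`: the cohomology of degree `j` of a smooth projective scheme is pure of weight `j`. -/
structure IsGraded (D : Graded k C) : Prop where
  iso : ∀ {X Y : Sch k}, FT True X → Nonempty (X ≅ Y) → ∀ w n, Nonempty (D.H X w n ≅ D.H Y w n)
  localization : ∀ {Z X U : Sch k} (i : Z ⟶ X) (j : U ⟶ X), FT True X → IsTriple i j → ∀ w : ℤ,
    ∃ (a : ∀ n, D.H U w n ⟶ D.H X w n) (b : ∀ n, D.H X w n ⟶ D.H Z w n)
      (d : ∀ n, D.H Z w n ⟶ D.H U w (n + 1)),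
      ∀ n, ExactAt (a n) (b n) ∧ ExactAt (b n) (d n) ∧ ExactAt (d n) (a (n + 1))
  bundle : ∀ (A : Type) [CommRing A] [Algebra k A] [Algebra.FiniteType k A] (m : ℕ)
    (f : Fin m → A) (U : Sch k) (j : U ⟶ aff k A), IsOpenImmersion j.left →
    Set.range j.left = {x : PrimeSpectrum A | ∃ l, f l ∉ x.asIdeal} → ∀ w n : ℤ,
    Nonempty (D.H (aff k (Jou f)) (w + 2 * (m - 1 : ℕ)) (n + 2 * (m - 1 : ℕ)) ≅
      tw D.L (m - 1) (D.H U w n))
  torus : ∀ (A : Type) [CommRing A] [Algebra k A] [Algebra.FiniteType k A] (w n : ℤ),
    ∃ (s : D.H (aff k A) w n ⟶ D.H (aff k (LaurentPolynomial A)) w (n + 1))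
      (r : D.H (aff k (LaurentPolynomial A)) w (n + 1) ⟶ D.H (aff k A) w n), s ≫ r = 𝟙 _
  point : Nonempty (D.H (aff k k) 0 0 ≅ D.one) ∧
    ∀ w n : ℤ, (w ≠ 0 ∨ n ≠ 0) → IsZero (D.H (aff k k) w n)
  pure : ∀ X : Sch k, SmProj X → ∀ w n : ℤ, w ≠ n → IsZero (D.H X w n)

/-- The property `Q w` of objects of `C` (of weight `w`) is closed under direct sums, direct summands
and Tate twists, and it is true for the unit motive. -/
structure Stable (D : Graded k C) (Q : ℤ → C → Prop) : Prop where
  zero : ∀ w A, IsZero A → Q w A
  sum : ∀ w A B, Q w A → Q w B → Q w (A ⊞ B)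
  summand : ∀ w A B (s : A ⟶ B) (r : B ⟶ A), s ≫ r = 𝟙 A → Q w B → Q w A
  twist : ∀ w A, Q (w + 2) (D.L.obj A) ↔ Q w A
  unit : Q 0 D.one

/-- All pieces of the scheme `X` have the property `Q`. -/
def Pieces (D : Graded k C) (Q : ℤ → C → Prop) (X : Sch k) : Prop := ∀ w n : ℤ, Q w (D.H X w n)

end Pool.Agent.Y691.TU
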