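import Pool.Agent.Y691.TU.HodDefs
import Pool.Agent.Y691.TU.Unit

/-!
# Hodge classes and absolute Hodge classes
-/

set_option autoImplicit false

open CategoryTheory CategoryTheory.Limits AlgebraicGeometry

namespace Pool.Agent.Y691.TU

universe v u v' u'

variable {C : Type u} [Category.{v} C] [Abelian C] {Hod : Type u'} [Category.{v'} Hod]
  [Preadditive Hod] (F : C ⥤ Hod) [F.Additive] (one : C)

/-- The property is additive. -/
lemma additive_hodge : Additive (HodgeAbsolute F one) where
  iso A B h hA := by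
    obtain ⟨e⟩ := h
    intro φ
    obtain ⟨f, hf⟩ := hA (φ ≫ F.map e.inv)
    refine ⟨f ≫ e.hom, ?_⟩
    rw [F.map_comp, hf, Category.assoc, ← F.map_comp, e.inv_hom_id, F.map_id, Category.comp_id]
  zero A h := by
    intro φ
    refine ⟨0, ?_⟩
    have h1 : F.map (𝟙 A) = 0 := by rw [(IsZero.iff_id_eq_zero A).mp h, F.map_zero]
    rw [F.map_zero, ← Category.comp_id φ, ← F.map_id, h1, comp_zero]
  sum A B hA hB := by
    intro φ
    obtain ⟨f, hf⟩ := hA (φ ≫ F.map biprod.fst)
    obtain ⟨g, hg⟩ := hB (φ ≫ F.map biprod.snd)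
    refine ⟨f ≫ biprod.inl + g ≫ biprod.inr, ?_⟩
    rw [F.map_add, F.map_comp, F.map_comp, hf, hg, Category.assoc, Category.assoc,
      ← F.map_comp, ← F.map_comp, ← Preadditive.comp_add, ← F.map_add, biprod.total, F.map_id,
      Category.comp_id]

/-- Fullness. -/
lemma full_iff (hd : HasDuality F one) : F.Full ↔ ∀ B : C, HodgeAbsolute F one B := by
  constructor
  · intro h B φ
    exact F.map_surjective φ
  · intro h
    refine ⟨fun {M N} φ => ?_⟩
    obtain ⟨P, e, e', he⟩ := hd M N
    obtain ⟨f, hf⟩ := h P (e'.symm φ)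
    refine ⟨e f, ?_⟩
    rw [← he, hf, Equiv.apply_symm_apply]

end Pool.Agent.Y691.TU
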