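import Pool.Agent.Y691.TU.Defs
import Pool.Agent.Y101.Th.Gen
import Pool.Agent.Z125.UN.Prime

/-!
# Properties of weight graded pieces are closed under closed-open decompositions
-/

set_option autoImplicit false

open CategoryTheory CategoryTheory.Limits AlgebraicGeometry

namespace Pool.Agent.Y691.TU

open Pool.Agent.Y116.UV Pool.Agent.Y101.Th Pool.Agent.Z125.UN

universe v u

section semisimple

variable {C : Type u} [Category.{v} C] [Abelian C]

/-- In a semisimple category epimorphisms split. -/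
lemma epi_split (hC : Semisimple C) {A B : C} (p : A ⟶ B) [Epi p] : ∃ s : B ⟶ A, s ≫ p = 𝟙 B := by
  obtain ⟨r, hr⟩ := hC _ _ (kernel.ι p) inferInstance
  have h1 : kernel.ι p ≫ (𝟙 A - r ≫ kernel.ι p) = 0 := by
    rw [Preadditive.comp_sub, Category.comp_id, ← Category.assoc, hr, Category.id_comp, sub_self]
  let S : ShortComplex C := ShortComplex.mk (kernel.ι p) p (kernel.condition p)
  have hS : S.Exact := ShortComplex.exact_of_f_is_kernel S (kernelIsKernel p)
  have hg : Epi S.g := inferInstanceAs (Epi p)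
  refine ⟨hS.desc (𝟙 A - r ≫ kernel.ι p) h1, ?_⟩
  rw [← cancel_epi p, ← Category.assoc]
  have h2 : p ≫ hS.desc (𝟙 A - r ≫ kernel.ι p) h1 = 𝟙 A - r ≫ kernel.ι p := hS.g_desc _ _
  rw [h2, Preadditive.sub_comp, Category.assoc, kernel.condition, comp_zero, sub_zero,
    Category.id_comp, Category.comp_id]

variable {Q : C → Prop}

/-- The middle term of an exact sequence. -/
lemma mid (hC : Semisimple C) (hsum : ∀ A B, Q A → Q B → Q (A ⊞ B))
    (hret : ∀ A B (s : A ⟶ B) (r : B ⟶ A), s ≫ r = 𝟙 A → Q B → Q A)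
    {A B B' : C} {f : A ⟶ B} {g : B ⟶ B'} (h : ExactAt f g) (hA : Q A) (hB' : Q B') : Q B := by
  obtain ⟨hz, he⟩ := h
  have hK : Q (kernel g) := by
    have hepi : Epi (kernel.lift g f hz) := by
      have := he.epi_kernelLift
      exact this
    obtain ⟨s, hs⟩ := epi_split hC (kernel.lift g f hz)
    exact hret _ _ s _ hs hA
  obtain ⟨ρ, hρ⟩ := hC _ _ (kernel.ι g) inferInstance
  let m : B ⟶ kernel g ⊞ B' := biprod.lift ρ g
  have hm : Mono m := by
    rw [Preadditive.mono_iff_cancel_zero]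
    intro X x hx
    have h1 : x ≫ ρ = 0 := by
      have := congrArg (fun t => t ≫ biprod.fst) hx
      simpa [m] using this
    have h2 : x ≫ g = 0 := by
      have := congrArg (fun t => t ≫ biprod.snd) hx
      simpa [m] using this
    have h3 : x = kernel.lift g x h2 ≫ kernel.ι g := (kernel.lift_ι _ _ _).symm
    have h4 : kernel.lift g x h2 = 0 := by
      rw [h3, Category.assoc, hρ, Category.comp_id] at h1
      exact h1
    rw [h3, h4, zero_comp]
  obtain ⟨r, hr⟩ := hC _ _ m hm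
  exact hret _ _ m r hr (hsum _ _ hK hB')

end semisimple

section

variable {k : Type} [Field k] {C : Type u} [Category.{v} C] [Abelian C] {D : Graded k C}
  {Q : ℤ → C → Prop}

lemma Stable.iso (hQ : Stable D Q) {w : ℤ} {A B : C} (h : Nonempty (A ≅ B)) : Q w A ↔ Q w B := by
  obtain ⟨e⟩ := h
  exact ⟨hQ.summand w B A e.inv e.hom e.inv_hom_id, hQ.summand w A B e.hom e.inv e.hom_inv_id⟩

lemma Stable.tw (hQ : Stable D Q) (w : ℤ) (A : C) :
    ∀ n : ℕ, Q (w + 2 * n) (tw D.L n A) ↔ Q w A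
  | 0 => by
    have h : w + 2 * ((0 : ℕ) : ℤ) = w := by simp
    rw [h]
    exact Iff.rfl
  | n + 1 => by
    have h : w + 2 * ((n + 1 : ℕ) : ℤ) = (w + 2 * n) + 2 := by
      push_cast
      ring
    rw [h]
    exact (hQ.twist _ _).trans (hQ.tw w A n)

lemma pieces_iso (hD : IsGraded D) (hQ : Stable D Q) {X Y : Sch k} (hX : FT True X)
    (h : Nonempty (X ≅ Y)) (hP : Pieces D Q X) : Pieces D Q Y := fun w n =>
  (hQ.iso (hD.iso hX h w n)).mp (hP w n)

lemma pieces_point (hD : IsGraded D) (hQ : Stable D Q) : Pieces D Q (aff k k) := by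
  intro w n
  by_cases h : w ≠ 0 ∨ n ≠ 0
  · exact hQ.zero _ _ (hD.point.2 w n h)
  · push Not at h
    obtain ⟨rfl, rfl⟩ := h
    exact (hQ.iso hD.point.1).mpr hQ.unit

lemma pieces_bundle (hD : IsGraded D) (hQ : Stable D Q) (A : Type) [CommRing A] [Algebra k A]
    [Algebra.FiniteType k A] (m : ℕ) (f : Fin m → A) (U : Sch k) (j : U ⟶ aff k A)
    (hj : IsOpenImmersion j.left)
    (hr : Set.range j.left = {x : PrimeSpectrum A | ∃ l, f l ∉ x.asIdeal}) :
    Pieces D Q (aff k (Jou f)) ↔ Pieces D Q U := by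
  constructor
  · intro h w n
    rw [← hQ.tw w _ (m - 1)]
    exact (hQ.iso (hD.bundle A m f U j hj hr w n)).mp (h _ _)
  · intro h w n
    obtain ⟨w, rfl⟩ : ∃ v, w = v + 2 * ((m - 1 : ℕ) : ℤ) := ⟨w - 2 * ((m - 1 : ℕ) : ℤ), by ring⟩
    obtain ⟨n, rfl⟩ : ∃ v, n = v + 2 * ((m - 1 : ℕ) : ℤ) := ⟨n - 2 * ((m - 1 : ℕ) : ℤ), by ring⟩
    rw [hQ.iso (hD.bundle A m f U j hj hr w n), hQ.tw]
    exact h w n

/-- Properties of the weight graded pieces in a semisimple category satisfy the axioms `Bnd`. -/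
theorem bnd_pieces (hC : Semisimple C) (hD : IsGraded D) (hQ : Stable D Q) :
    Bnd True (Pieces D Q) where
  iso hX h hP := pieces_iso hD hQ hX h hP
  total i j hX ht hZ hU := by
    intro w n
    obtain ⟨a, b, d, h⟩ := hD.localization i j hX ht w
    exact mid hC (hQ.sum w) (hQ.summand w) (h n).1 (hU w n) (hZ w n)
  opened i j hX ht hZ hXX := by
    intro w n
    obtain ⟨n, rfl⟩ : ∃ v, n = v + 1 := ⟨n - 1, by ring⟩
    obtain ⟨a, b, d, h⟩ := hD.localization i j hX ht w
    exact mid hC (hQ.sum w) (hQ.summand w) (h n).2.2 (hZ w n) (hXX w (n + 1))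
  closed i j hX ht hXX hU := by
    intro w n
    obtain ⟨a, b, d, h⟩ := hD.localization i j hX ht w
    exact mid hC (hQ.sum w) (hQ.summand w) (h n).2.1 (hXX w n) (hU w (n + 1))
  space n := by
    have h := pieces_bundle hD hQ k (n + 1) (f1 k n) (aff k k) (𝟙 _) inferInstance (range_id n)
    exact pieces_iso hD hQ (ft_aff True) ⟨(affIso (jouOne k n)).symm⟩
      (h.mpr (pieces_point hD hQ))
  jouanolou A _ _ _ m f U j hj hr h := (pieces_bundle hD hQ A m f U j hj hr).mp h
  torus A _ _ _ h := by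
    intro w n
    obtain ⟨s, r, hs⟩ := hD.torus A w n
    exact hQ.summand w _ _ s r hs (h w (n + 1))
  bundle A _ _ _ m f U j hj hr h := (pieces_bundle hD hQ A m f U j hj hr).mpr h

end

end Pool.Agent.Y691.TU
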