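import Pool.Agent.Y691.TU.EvDefs

/-!
# Critical values of motives with coefficients in a number field: definitions
-/

set_option autoImplicit false

open CategoryTheory CategoryTheory.Limits AlgebraicGeometry TensorProduct

namespace Pool.Agent.Y691.TU

universe v u

/-- Data for the motives with coefficients in the number field `E`: the Hodge numbers `hodge M p q`
(ranks over `E ⊗ ℂ`), the dimensions `dim M ε` over `E` of the eigenspaces of `F_∞` on the Betti
realisation, the values `Lval M m` in `E ⊗ ℂ` of the `L`-function at the integers `m`, and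
representatives `per M ε` of Deligne's periods `c^ε(M)`; the sign `ε` is `1` or `-1`. -/
structure Values (E : Type) [Field E] [Algebra ℚ E] (C : Type u) where
  hodge : C → ℤ → ℤ → ℕ
  dim : C → ℤˣ → ℕ
  Lval : C → ℤ → E ⊗[ℚ] ℂ
  per : C → ℤˣ → (E ⊗[ℚ] ℂ)ˣ

variable {k : Type} [Field k] {E : Type} [Field E] [Algebra ℚ E] {C : Type u}

/-- The motive `M` is pure of some weight `w` and has no classes of type `(w / 2, w / 2)`. -/
def Admissible (T : Values E C) (M : C) : Prop :=
  (∃ w : ℤ, ∀ p q : ℤ, T.hodge M p q ≠ 0 → p + q = w) ∧ ∀ p : ℤ, T.hodge M p p = 0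

/-- The integer `m` is critical for `M`. -/
def IsCritical (T : Values E C) (M : C) (m : ℤ) : Prop :=
  ∀ p q : ℤ, p < q → T.hodge M p q ≠ 0 → p < m ∧ m ≤ q

/-- **Deligne's conjecture** for the motive `M`: if `M` is pure of weight `w` without classes of type
`(w / 2, w / 2)`, then for every critical integer `m`, with the sign `ε` of `(-1)^m`, there is an
element `e` of `E` with `L(m, M) = e (2 π i)^(m n^ε) c^ε(M)`. -/
def Deligne (T : Values E C) (M : C) : Prop :=
  Admissible T M → ∀ m : ℤ, IsCritical T M m →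
    ∃ e : E, T.Lval M m = (e ⊗ₜ[ℚ] (1 : ℂ)) *
      ((1 : E) ⊗ₜ[ℚ] ((2 * Real.pi * Complex.I : ℂ) ^ (m * (T.dim M m.negOnePow : ℤ)))) *
        T.per M m.negOnePow

/-- Known properties of the values. The Hodge numbers depend only on the isomorphism class, they are
additive, a motive without Hodge numbers is zero, the Tate twist `A ↦ A(-1)` shifts the Hodge numbers,
and the unit motive has no Hodge numbers outside the diagonal (`hodge_iso`, `hodge_sum`, `faithful`,
`twist`, `unit`). For pure motives without classes on the diagonal the dimensions, the values of the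
`L`-functions at the critical integers and the periods (up to factors in `E^×`) depend only on the
isomorphism class (`iso`); they are `0`, `1`, `1` for the zero motive (`zero`); the dimensions are
additive, the values and the periods (up to factors in `E^×`) are multiplicative (`sum`). -/
structure IsValues [Category.{v} C] [Abelian C] (T : Values E C) (D : Graded k C) : Prop where
  hodge_iso : ∀ A B : C, Nonempty (A ≅ B) → ∀ p q, T.hodge A p q = T.hodge B p q
  hodge_sum : ∀ (A B : C) (p q : ℤ), T.hodge (A ⊞ B) p q = T.hodge A p q + T.hodge B p q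
  faithful : ∀ A : C, (∀ p q, T.hodge A p q = 0) → IsZero A
  twist : ∀ (A : C) (p q : ℤ), T.hodge (D.L.obj A) (p + 1) (q + 1) = T.hodge A p q
  unit : ∀ p q : ℤ, p ≠ q → T.hodge D.one p q = 0
  iso : ∀ A B : C, Nonempty (A ≅ B) → Admissible T A → (∀ ε, T.dim A ε = T.dim B ε) ∧
    (∀ m, IsCritical T A m → T.Lval A m = T.Lval B m) ∧
    ∀ ε, ∃ e : E, e ≠ 0 ∧ (T.per B ε : E ⊗[ℚ] ℂ) = (e ⊗ₜ[ℚ] (1 : ℂ)) * T.per A ε
  zero : ∀ A : C, IsZero A → (∀ ε, T.dim A ε = 0) ∧
    (∀ m, T.Lval A m = 1) ∧ ∀ ε, ∃ e : E, e ≠ 0 ∧ (T.per A ε : E ⊗[ℚ] ℂ) = e ⊗ₜ[ℚ] (1 : ℂ)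
  sum : ∀ A B : C, Admissible T (A ⊞ B) → (∀ ε, T.dim (A ⊞ B) ε = T.dim A ε + T.dim B ε) ∧
    (∀ m, IsCritical T (A ⊞ B) m → T.Lval (A ⊞ B) m = T.Lval A m * T.Lval B m) ∧
    ∀ ε, ∃ e : E, e ≠ 0 ∧
      (T.per (A ⊞ B) ε : E ⊗[ℚ] ℂ) = (e ⊗ₜ[ℚ] (1 : ℂ)) * T.per A ε * T.per B ε

end Pool.Agent.Y691.TU
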