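import Pool.Agent.Y691.TU.MeasDefs

/-!
# Local Euler factors: definitions
-/

set_option autoImplicit false

open CategoryTheory AlgebraicGeometry

namespace Pool.Agent.Y691.TU

open Pool.Agent.Y116.UV Pool.Agent.Y101.Th

instance primeFact (p : Nat.Primes) : Fact (Nat.Prime (p : ℕ)) := ⟨p.2⟩

/-- The values of the local Euler factors at all primes `p` for all primes `ℓ`: invertible power
series with coefficients in `ℚ_ℓ`. -/
abbrev EulerValues : Type := ∀ _ ℓ : Nat.Primes, (PowerSeries ℚ_[ℓ])ˣ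

/-- The effect of the Tate twist `(-1)` on the local Euler factors: `T` is replaced by `p T`. -/
noncomputable def eulerTwist (g : EulerValues) : EulerValues := fun p ℓ =>
  Units.map (PowerSeries.rescale ((p : ℕ) : ℚ_[ℓ])).toMonoidHom (g p ℓ)

/-- The family `g` of power series over the `ℚ_ℓ` has rational coefficients and does not depend on
`ℓ ≠ p`. -/
def RationalIndep (p : Nat.Primes) (g : ∀ ℓ : Nat.Primes, PowerSeries ℚ_[ℓ]) : Prop :=
  ∃ f : PowerSeries ℚ, ∀ ℓ : Nat.Primes, ℓ ≠ p →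
    g ℓ = PowerSeries.map (algebraMap ℚ ℚ_[ℓ]) f

/-- The family `P` of polynomials over the `ℚ_ℓ` has integral coefficients and does not depend on
`ℓ ≠ p`. -/
def IntegralIndep (p : Nat.Primes) (P : ∀ ℓ : Nat.Primes, Polynomial ℚ_[ℓ]) : Prop :=
  ∃ f : Polynomial ℤ, ∀ ℓ : Nat.Primes, ℓ ≠ p → P ℓ = f.map (algebraMap ℤ ℚ_[ℓ])

/-- Known properties of the local factors `P i X p ℓ = det (1 - F_p T | H^i(X, ℚ_ℓ)^{I_p})` of the
smooth projective schemes `X` over `ℚ` and of the weight graded Euler factors `E w X p ℓ`, the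
product over `j` of the powers `(-1)^(j - w)` of `det (1 - F_p T | (gr^W_w H^j_c(X, ℚ_ℓ))^{I_p})`, of
all separated schemes `X` of finite type over `ℚ`: the `E w X` are invariants of the Chow motives of
the `X`; `E w X = P w X` for smooth projective `X` (purity); the coefficients of `P i X p ℓ` are
algebraic integers (SGA 7 XXI, 5.3). -/
structure IsEuler (P : ℕ → Sch ℚ → ∀ _ ℓ : Nat.Primes, Polynomial ℚ_[ℓ])
    (E : ℤ → Sch ℚ → EulerValues) : Prop where
  inv : IsInvariant eulerTwist E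
  smooth : ∀ X : Sch ℚ, SmProj X → ∀ (i : ℕ) (p ℓ : Nat.Primes), ℓ ≠ p →
    (E i X p ℓ : PowerSeries ℚ_[ℓ]) = (P i X p ℓ : PowerSeries ℚ_[ℓ])
  integral : ∀ X : Sch ℚ, SmProj X → ∀ (i : ℕ) (p ℓ : Nat.Primes), ℓ ≠ p → ∀ n : ℕ,
    IsIntegral ℤ ((P i X p ℓ).coeff n)

end Pool.Agent.Y691.TU
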