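import Pool.Agent.Y691.TU.EvDefs
import Pool.Agent.Y691.TU.Main

/-!
# Additive properties of motives and trilinear forms
-/

set_option autoImplicit false

open CategoryTheory CategoryTheory.Limits AlgebraicGeometry

namespace Pool.Agent.Y691.TU

open Pool.Agent.Y116.UV Pool.Agent.Y101.Th Pool.Agent.Z125.UN

universe v u

section powers

variable {C : Type u} [Category.{v} C] (L : C ⥤ C)

/-- the powers of the twist -/
def pw : ℕ → (C ⥤ C)
  | 0 => 𝟭 C
  | n + 1 => pw n ⋙ L

lemma pw_obj (A : C) : ∀ n, (pw L n).obj A = tw L n A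
  | 0 => rfl
  | n + 1 => by
    change L.obj ((pw L n).obj A) = L.obj (tw L n A)
    rw [pw_obj A n]

lemma tw_succ (A : C) : ∀ n, tw L n (L.obj A) = tw L (n + 1) A
  | 0 => rfl
  | n + 1 => by
    change L.obj (tw L n (L.obj A)) = L.obj (tw L (n + 1) A)
    rw [tw_succ A n]

instance pw_equiv [L.IsEquivalence] : ∀ n, (pw L n).IsEquivalence
  | 0 => inferInstanceAs (𝟭 C).IsEquivalence
  | n + 1 =>
    have := pw_equiv n
    inferInstanceAs (pw L n ⋙ L).IsEquivalence

lemma tw_iso {A B : C} (n : ℕ) (h : Nonempty (A ≅ B)) : Nonempty (tw L n A ≅ tw L n B) := by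
  obtain ⟨e⟩ := h
  rw [← pw_obj, ← pw_obj]
  exact ⟨(pw L n).mapIso e⟩

lemma tw_surj [L.IsEquivalence] (n : ℕ) (A : C) : ∃ B, Nonempty (tw L n B ≅ A) := by
  refine ⟨(pw L n).objPreimage A, ?_⟩
  rw [← pw_obj]
  exact ⟨(pw L n).objObjPreimageIso A⟩

lemma tw_inj [L.IsEquivalence] (n : ℕ) {A B : C} (h : Nonempty (tw L n A ≅ tw L n B)) :
    Nonempty (A ≅ B) := by
  rw [← pw_obj, ← pw_obj] at h
  obtain ⟨e⟩ := h
  exact ⟨(pw L n).preimageIso e⟩

variable {L}

lemma isTwist_refl (B : C) : IsTwist L B B := ⟨0, 0, ⟨Iso.refl _⟩⟩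

lemma isTwist_iso {B B' B'' : C} (h : IsTwist L B B') (e : Nonempty (B ≅ B'')) :
    IsTwist L B'' B' := by
  obtain ⟨a, b, ⟨f⟩⟩ := h
  obtain ⟨g⟩ := tw_iso L b e
  exact ⟨a, b, ⟨f ≪≫ g⟩⟩

end powers

section sums

variable {C : Type u} [Category.{v} C] [Abelian C] {L : C ⥤ C}

/-- Direct summands of direct sums in a semisimple category. -/
lemma split_summand (hC : Semisimple C) {A A' B : C} (s : B ⟶ A ⊞ A') (r : A ⊞ A' ⟶ B)
    (h : s ≫ r = 𝟙 B) : ∃ (K I : C) (s1 : K ⟶ A) (r1 : A ⟶ K) (s2 : I ⟶ A') (r2 : A' ⟶ I),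
      s1 ≫ r1 = 𝟙 K ∧ s2 ≫ r2 = 𝟙 I ∧ Nonempty (B ≅ K ⊞ I) := by
  let g : B ⟶ A' := s ≫ biprod.snd
  let S : ShortComplex C := ShortComplex.mk (kernel.ι g) (factorThruImage g) (by
    rw [← cancel_mono (image.ι g), Category.assoc, image.fac, kernel.condition, zero_comp])
  have hS : S.Exact := by
    refine ShortComplex.exact_of_f_is_kernel S ?_
    refine KernelFork.IsLimit.ofι _ _ (fun x hx => kernel.lift g x ?_) (fun x hx => ?_)
      (fun x hx m hm => ?_)
    · rw [← image.fac g, ← Category.assoc]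
      change x ≫ factorThruImage g = 0 at hx
      rw [hx, zero_comp]
    · exact kernel.lift_ι _ _ _
    · rw [← cancel_mono (kernel.ι g), kernel.lift_ι]
      exact hm
  obtain ⟨ρ, hρ⟩ := hC _ _ (kernel.ι g) inferInstance
  have hsm : Mono s := mono_of_mono_fac h
  have hm1 : Mono (kernel.ι g ≫ s ≫ biprod.fst) := by
    rw [Preadditive.mono_iff_cancel_zero]
    intro X x hx
    have h1 : x ≫ kernel.ι g ≫ s = 0 := by
      apply biprod.hom_ext
      · rw [zero_comp]
        simpa using hx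
      · rw [zero_comp, Category.assoc, Category.assoc]
        have h2 : kernel.ι g ≫ s ≫ biprod.snd = 0 := kernel.condition g
        rw [h2, comp_zero]
    have h3 : Mono (kernel.ι g ≫ s) := mono_comp _ _
    rw [← cancel_mono (kernel.ι g ≫ s), h1, zero_comp]
  obtain ⟨r1, hr1⟩ := hC _ _ (kernel.ι g ≫ s ≫ biprod.fst) hm1
  obtain ⟨r2, hr2⟩ := hC _ _ (image.ι g) inferInstance
  refine ⟨kernel g, image g, _, r1, image.ι g, r2, hr1, hr2, ?_⟩
  have hepi : Epi S.g := inferInstanceAs (Epi (factorThruImage g))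
  exact ⟨(ShortComplex.Splitting.ofExactOfRetraction S hS ρ hρ hepi).isoBinaryBiproduct⟩

lemma tw_sum [L.IsEquivalence] (n : ℕ) (A B : C) :
    Nonempty (tw L n (A ⊞ B) ≅ tw L n A ⊞ tw L n B) := by
  rw [← pw_obj, ← pw_obj, ← pw_obj]
  have : PreservesBinaryBiproducts (pw L n) :=
    preservesBinaryBiproducts_of_preservesBinaryProducts (pw L n)
  exact ⟨(pw L n).mapBiprod A B⟩

variable {R : C → Prop}

lemma Every.self {A : C} (h : Every L R A) : R A := h A A (𝟙 A) (𝟙 A) (Category.id_comp _)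
  (isTwist_refl A)

lemma every_summand {A B : C} (s : A ⟶ B) (r : B ⟶ A) (h : s ≫ r = 𝟙 A) (hB : Every L R B) :
    Every L R A := by
  intro B1 B' s1 r1 h1 ht
  refine hB B1 B' (s1 ≫ s) (r ≫ r1) ?_ ht
  rw [Category.assoc, ← Category.assoc s r r1, h, Category.id_comp, h1]

lemma every_zero (hR : Additive R) [L.IsEquivalence] {A : C} (hA : IsZero A) : Every L R A := by
  intro B B' s r h ht
  have hB : IsZero B := by
    rw [IsZero.iff_id_eq_zero, ← h, hA.eq_of_tgt s 0, zero_comp]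
  obtain ⟨a, b, ⟨e⟩⟩ := ht
  refine hR.zero _ ?_
  have h1 : IsZero (tw L b B) := by
    rw [← pw_obj]
    exact (pw L b).map_isZero hB
  have h2 : IsZero (tw L a B') := h1.of_iso e
  rw [← pw_obj] at h2
  exact IsZero.of_full_of_faithful_of_isZero (pw L a) _ h2

lemma every_sum (hC : Semisimple C) (hR : Additive R) [L.IsEquivalence] {A A' : C}
    (hA : Every L R A) (hA' : Every L R A') : Every L R (A ⊞ A') := by
  intro B B' s r h ht
  obtain ⟨K, I, s1, r1, s2, r2, h1, h2, ⟨e⟩⟩ := split_summand hC s r h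
  obtain ⟨a, b, ⟨f⟩⟩ := ht
  obtain ⟨K', hK⟩ := tw_surj L a (tw L b K)
  obtain ⟨I', hI⟩ := tw_surj L a (tw L b I)
  have h3 : R K' := hA K K' s1 r1 h1 ⟨a, b, hK⟩
  have h4 : R I' := hA' I I' s2 r2 h2 ⟨a, b, hI⟩
  refine hR.iso _ _ ?_ (hR.sum _ _ h3 h4)
  apply tw_inj L a
  obtain ⟨p1⟩ := tw_sum (L := L) a K' I'
  obtain ⟨p2⟩ := tw_sum (L := L) b K I
  obtain ⟨p3⟩ := tw_iso L b ⟨e⟩
  obtain ⟨hK⟩ := hK
  obtain ⟨hI⟩ := hI
  exact ⟨p1 ≪≫ biprod.mapIso hK hI ≪≫ p2.symm ≪≫ p3.symm ≪≫ f.symm⟩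

lemma every_twist [L.IsEquivalence] (A : C) : Every L R (L.obj A) ↔ Every L R A := by
  constructor
  · intro h B B' s r hs ht
    refine h (L.obj B) B' (L.map s) (L.map r) ?_ ?_
    · rw [← L.map_comp, hs, L.map_id]
    · obtain ⟨a, b, ⟨e⟩⟩ := ht
      refine ⟨a + 1, b, ?_⟩
      rw [tw_succ]
      exact ⟨L.mapIso e⟩
  · intro h B B' s r hs ht
    let e := L.objObjPreimageIso B
    have h1 : L.preimage (e.hom ≫ s) ≫ L.preimage (r ≫ e.inv) = 𝟙 (L.objPreimage B) := by
      apply L.map_injective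
      rw [L.map_comp, L.map_preimage, L.map_preimage, L.map_id]
      simp only [Category.assoc]
      rw [← Category.assoc s r, hs, Category.id_comp, Iso.hom_inv_id]
    refine h (L.objPreimage B) B' _ _ h1 ?_
    obtain ⟨a, b, ⟨f⟩⟩ := ht
    obtain ⟨g⟩ := tw_iso L b ⟨e⟩
    refine ⟨a, b + 1, ?_⟩
    rw [← tw_succ]
    exact ⟨f ≪≫ g.symm⟩

end sums

section

variable {k : Type} [Field k] {C : Type u} [Category.{v} C] [Abelian C] {D : Graded k C}
  {R : C → Prop}

/-- The property of all Tate twists of all direct summands is stable. -/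
lemma stable_every (hC : Semisimple C) [D.L.IsEquivalence] (hR : Additive R)
    (h1 : Every D.L R D.one) : Stable D (fun _ => Every D.L R) where
  zero _ _ hA := every_zero hR hA
  sum _ _ _ hA hB := every_sum hC hR hA hB
  summand _ _ _ s r h hB := every_summand s r h hB
  twist _ A := every_twist A
  unit := h1

/-- Additive properties of motives, dimension by dimension. -/
theorem every_dim [PerfectField k] (hk : Resolution k) (hC : Semisimple C) (hD : IsGraded D)
    [D.L.IsEquivalence] (hR : Additive R) (h1 : Every D.L R D.one) (n : ℕ) :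
    (∀ X : Sch k, SmProj X → topologicalKrullDim X.left ≤ n → ∀ i, Every D.L R (D.H X i i)) ↔
      ∀ (a b c : ℕ) (t : Fin a → Fin b → Fin c → k), (a ≤ n + 2 ∨ b ≤ n + 2 ∨ c ≤ n + 2) →
        ∀ w j, Every D.L R (D.H (hypS t) w j) :=
  cubic_dim hk hC hD (stable_every hC hR h1) n

lemma gen_every (hC : Semisimple C) [D.L.IsEquivalence] (hR : Additive R)
    (h : ∀ X : Sch k, SmProj X → ∀ i, Every D.L R (D.H X i i)) {A : C} (hA : Gen D A) :
    Every D.L R A := by
  induction hA with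
  | base X i hX => exact h X hX i
  | sum A B _ _ hA hB => exact every_sum hC hR hA hB
  | summand A B s r hs _ hB => exact every_summand s r hs hB
  | twist A _ hA => exact (every_twist A).mpr hA
  | untwist A _ hA => exact (every_twist A).mp hA

lemma all_every (hC : Semisimple C) [D.L.IsEquivalence] (hG : ∀ A : C, Gen D A)
    (hR : Additive R) : (∀ A : C, R A) ↔ ∀ X : Sch k, SmProj X → ∀ i, Every D.L R (D.H X i i) :=
  ⟨fun h _ _ _ _ B' _ _ _ _ => h B', fun h A => (gen_every hC hR h (hG A)).self⟩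

/-- Additive properties of all motives and trilinear forms. -/
theorem every_all [PerfectField k] (hk : Resolution k) (hC : Semisimple C) (hD : IsGraded D)
    [D.L.IsEquivalence] (hG : ∀ A : C, Gen D A) (hR : Additive R) (h1 : Every D.L R D.one) :
    (∀ A : C, R A) ↔
      ∀ (a b c : ℕ) (t : Fin a → Fin b → Fin c → k) (w j : ℤ), Every D.L R (D.H (hypS t) w j) :=
  (all_every hC hG hR).trans (cubic_all hk hC hD (stable_every hC hR h1))

/-- Additive properties of all motives and trilinear forms with coefficients `0` and `1`. -/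
theorem every_frac [PerfectField k] (hf : IsFrac k) (hk : Resolution k) (hC : Semisimple C)
    (hD : IsGraded D) [D.L.IsEquivalence] (hG : ∀ A : C, Gen D A) (hR : Additive R)
    (h1 : Every D.L R D.one) : (∀ A : C, R A) ↔
      ∀ (a b c : ℕ) (S : Finset (Fin a × Fin b × Fin c)) (w j : ℤ),
        Every D.L R (D.H (tripS k S) w j) :=
  (all_every hC hG hR).trans (cubic_frac hf hk hC hD (stable_every hC hR h1))

end

end Pool.Agent.Y691.TU
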