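import Pool.Agent.Y691.TU.Defs

/-!
# Additive properties of motives: definitions
-/

set_option autoImplicit false

open CategoryTheory CategoryTheory.Limits AlgebraicGeometry

namespace Pool.Agent.Y691.TU

open Pool.Agent.Y116.UV Pool.Agent.Y101.Th

universe v u

variable {k : Type} [Field k] {C : Type u} [Category.{v} C]

/-- `B'` is a Tate twist `B(r)` of `B`, for some integer `r`. -/
def IsTwist (L : C ⥤ C) (B B' : C) : Prop := ∃ a b : ℕ, Nonempty (tw L a B' ≅ tw L b B)

/-- The property `R` is true for all Tate twists of all direct summands of `A`. -/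
def Every (L : C ⥤ C) (R : C → Prop) (A : C) : Prop :=
  ∀ (B B' : C) (s : B ⟶ A) (r : A ⟶ B), s ≫ r = 𝟙 B → IsTwist L B B' → R B'

/-- The property `R` of objects is closed under isomorphisms and finite direct sums. -/
structure Additive [Abelian C] (R : C → Prop) : Prop where
  iso : ∀ A B : C, Nonempty (A ≅ B) → R A → R B
  zero : ∀ A : C, IsZero A → R A
  sum : ∀ A B : C, R A → R B → R (A ⊞ B)

/-- The motives obtained from the cohomology of smooth projective schemes by finite direct sums,
direct summands and Tate twists. -/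
inductive Gen [Abelian C] (D : Graded k C) : C → Prop
  | base (X : Sch k) (i : ℤ) : SmProj X → Gen D (D.H X i i)
  | sum (A B : C) : Gen D A → Gen D B → Gen D (A ⊞ B)
  | summand (A B : C) (s : A ⟶ B) (r : B ⟶ A) : s ≫ r = 𝟙 A → Gen D B → Gen D A
  | twist (A : C) : Gen D A → Gen D (D.L.obj A)
  | untwist (A : C) : Gen D (D.L.obj A) → Gen D A

end Pool.Agent.Y691.TU
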