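import Pool.Agent.Y691.TU.EvDefs

/-!
# The conjecture of Gross and Deligne: definitions
-/

set_option autoImplicit false

open CategoryTheory CategoryTheory.Limits AlgebraicGeometry

namespace Pool.Agent.Y691.TU

universe v u

/-- Data on an object `B` with complex multiplication: `HasCM B d p P` says that there are an abelian
number field `F` of conductor `d` with `[F : ℚ] = dim B` and an embedding of `F` into the ring of
endomorphisms of `B`, such that, for all units `x` modulo `d` with the corresponding embedding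
`σ` of `F` into `ℂ`, the line of `B` on which `F` acts by `σ` has the Hodge type `(p x, *)` and the
period `P x` (up to algebraic factors). -/
abbrev CMData (C : Type u) := C → ∀ d : ℕ, ((ZMod d)ˣ → ℤ) → ((ZMod d)ˣ → ℂ) → Prop

/-- **The conjecture of Gross and Deligne** for the object `B`: whenever `B` has complex multiplication
by an abelian field of conductor `d` with the Hodge types `p` and the periods `P`, and
`d p(x) = ∑_{0 < a < d} ε(a) ⟨x a⟩` for all units `x` modulo `d`, then for all `x` the period `P x` is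
an algebraic multiple of `∏_{0 < a < d} Γ(1 - a / d) ^ ε(a / x)`. -/
def GrossDeligne {C : Type u} (HasCM : CMData C) (B : C) : Prop :=
  ∀ (d : ℕ) [NeZero d] (p : (ZMod d)ˣ → ℤ) (P : (ZMod d)ˣ → ℂ), HasCM B d p P →
    ∀ ε : ZMod d → ℚ,
      (∀ x : (ZMod d)ˣ, (d : ℚ) * p x =
        ∑ a ∈ Finset.Ioo 0 d, ε (a : ZMod d) * ((x : ZMod d) * (a : ZMod d)).val) →
      ∀ x : (ZMod d)ˣ, ∃ α : ℂ, IsAlgebraic ℚ α ∧ α ≠ 0 ∧
        P x = α * ∏ a ∈ Finset.Ioo 0 d,
          ((Real.Gamma (1 - a / d) ^ ((ε ((a : ZMod d) * ((x⁻¹ : (ZMod d)ˣ) : ZMod d)) : ℚ) : ℝ) :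
            ℝ) : ℂ)

/-- The conjecture for simple objects. -/
def GDSimple {C : Type u} [Category.{v} C] [HasZeroMorphisms C] (HasCM : CMData C) (B : C) :
    Prop :=
  Simple B → GrossDeligne HasCM B

end Pool.Agent.Y691.TU
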