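import Pool.Agent.Y691.TU.EvDefs

/-!
# Hodge classes and absolute Hodge classes: definitions
-/

set_option autoImplicit false

open CategoryTheory CategoryTheory.Limits AlgebraicGeometry

namespace Pool.Agent.Y691.TU

universe v u v' u'

/-- All Hodge classes of the motive `B` are absolute Hodge: every morphism from the unit Hodge
structure `F(1)` to the Hodge structure `F(B)` comes from a morphism of motives `1 → B`, where `F` is
the Hodge realisation. -/
def HodgeAbsolute {C : Type u} [Category.{v} C] {Hod : Type u'} [Category.{v'} Hod] (F : C ⥤ Hod)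
    (one : C) (B : C) : Prop :=
  ∀ φ : F.obj one ⟶ F.obj B, ∃ f : one ⟶ B, F.map f = φ

/-- The functor `F` is compatible with duality: for all `M`, `N` there is an object `P` (the internal
homomorphisms from `M` to `N`) such that the morphisms `1 → P` are the morphisms `M → N`, compatibly
for the motives and for their realisations. -/
def HasDuality {C : Type u} [Category.{v} C] {Hod : Type u'} [Category.{v'} Hod] (F : C ⥤ Hod)
    (one : C) : Prop :=
  ∀ M N : C, ∃ (P : C) (e : (one ⟶ P) ≃ (M ⟶ N))
    (e' : (F.obj one ⟶ F.obj P) ≃ (F.obj M ⟶ F.obj N)), ∀ f, e' (F.map f) = F.map (e f)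

end Pool.Agent.Y691.TU
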