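import Pool.Agent.Y101.Th.PairDefs

/-!
# Multiplicative invariants of schemes: definitions
-/

set_option autoImplicit false

open CategoryTheory AlgebraicGeometry

namespace Pool.Agent.Y691.TU

open Pool.Agent.Y116.UV Pool.Agent.Y101.Th

/-- Known properties of the weight graded invariants `e w X` with values in a commutative group `G` of
the separated schemes of finite type over a field of characteristic zero, that is of invariants
which factor through the Grothendieck group of Chow motives (Gillet-Soulé, Bittner): isomorphic
schemes have the same invariants (`iso`); for a closed subscheme `Z` of `X` with the complement `U` we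
have `e w X = e w Z * e w U` (`add`); for the affine bundle `Spec A[w_1, …, w_m] / (∑ f_l w_l - 1) → U`
with fibre `𝔸^(m-1)`, where `U` is the complement of `f = 0` in `Spec A`, the invariant of the total
space in the weight `w + 2 (m - 1)` is obtained from `e w U` by the operation `τ` of the Tate twist,
`m - 1` times (`bundle`); `e w (X × 𝔾_m) * e w X = τ (e (w - 2) X)` (`torus`); the weights are
nonnegative (`neg`). -/
structure IsInvariant {k : Type} [Field k] {G : Type} [CommGroup G] (τ : G → G)
    (e : ℤ → Sch k → G) : Prop where
  iso : ∀ {X Y : Sch k}, FT True X → Nonempty (X ≅ Y) → ∀ w, e w X = e w Y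
  add : ∀ {Z X U : Sch k} (i : Z ⟶ X) (j : U ⟶ X), FT True X → IsTriple i j → ∀ w,
    e w X = e w Z * e w U
  bundle : ∀ (A : Type) [CommRing A] [Algebra k A] [Algebra.FiniteType k A] (m : ℕ)
    (f : Fin m → A) (U : Sch k) (j : U ⟶ aff k A), IsOpenImmersion j.left →
    Set.range j.left = {x : PrimeSpectrum A | ∃ l, f l ∉ x.asIdeal} → ∀ w : ℤ,
    e (w + 2 * (m - 1 : ℕ)) (aff k (Jou f)) = τ^[m - 1] (e w U)
  torus : ∀ (A : Type) [CommRing A] [Algebra k A] [Algebra.FiniteType k A] (w : ℤ),
    e w (aff k (LaurentPolynomial A)) * e w (aff k A) = τ (e (w - 2) (aff k A))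
  neg : ∀ (X : Sch k), FT True X → ∀ w, w < 0 → e w X = 1

end Pool.Agent.Y691.TU
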