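import Pool.Agent.Y691.TU.RatDefs
import Pool.Agent.Y691.TU.Unit

/-!
# Deligne's conjecture with rational coefficients is an additive property
-/

set_option autoImplicit false

open CategoryTheory CategoryTheory.Limits AlgebraicGeometry

namespace Pool.Agent.Y691.TU

universe v u

variable {k : Type} [Field k] {C : Type u} [Category.{v} C] [Abelian C] {T : RatValues C}

lemma rat_iso (hT : IsRatValues T) (A B : C) (h : Nonempty (A ≅ B)) (hA : DeligneRat T A) :
    DeligneRat T B := by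
  obtain ⟨h1, h2⟩ := hT.hodge_iso A B h
  rintro ⟨⟨w, hw⟩, hc, he⟩
  have hA' : PureCritical T A := by
    refine ⟨⟨w, fun p q hh => hw p q ?_⟩, fun p q hpq hh => hc p q hpq ?_,
      fun p ε hh => he p ε ?_⟩
    · rw [← h1]; exact hh
    · rw [← h1]; exact hh
    · rw [← h2]; exact hh
  obtain ⟨h3, r, hr, h4⟩ := hT.iso A B h hA'
  obtain ⟨s, hs⟩ := hA hA'
  have hr' : (r : ℂ) ≠ 0 := by exact_mod_cast hr
  refine ⟨s / r, ?_⟩
  rw [← h3, hs, h4]
  push_cast
  field_simp

lemma rat_zero (hT : IsRatValues T) (A : C) (h : IsZero A) : DeligneRat T A := by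
  intro _
  obtain ⟨h1, r, hr, h2⟩ := hT.zero A h
  have hr' : (r : ℂ) ≠ 0 := by exact_mod_cast hr
  refine ⟨r⁻¹, ?_⟩
  rw [h1, h2]
  push_cast
  field_simp

lemma rat_sum (hT : IsRatValues T) (A B : C) (hA : DeligneRat T A) (hB : DeligneRat T B) :
    DeligneRat T (A ⊞ B) := by
  obtain ⟨h1, h2⟩ := hT.hodge_sum A B
  intro hAB
  obtain ⟨h3, r, hr, h4⟩ := hT.sum A B hAB
  obtain ⟨⟨w, hw⟩, hc, he⟩ := hAB
  have hA' : PureCritical T A := by
    refine ⟨⟨w, fun p q hh => hw p q ?_⟩, fun p q hpq hh => hc p q hpq ?_,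
      fun p ε hh => he p ε ?_⟩
    · rw [h1]; omega
    · rw [h1]; omega
    · rw [h2]; omega
  have hB' : PureCritical T B := by
    refine ⟨⟨w, fun p q hh => hw p q ?_⟩, fun p q hpq hh => hc p q hpq ?_,
      fun p ε hh => he p ε ?_⟩
    · rw [h1]; omega
    · rw [h1]; omega
    · rw [h2]; omega
  obtain ⟨a, ha⟩ := hA hA'
  obtain ⟨b, hb⟩ := hB hB'
  have hr' : (r : ℂ) ≠ 0 := by exact_mod_cast hr
  refine ⟨a * b / r, ?_⟩
  rw [h3, ha, hb, h4]
  push_cast
  field_simp

/-- Deligne's conjecture with rational coefficients is an additive property. -/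
lemma additive_rat (hT : IsRatValues T) : Additive (DeligneRat T) where
  iso := rat_iso hT
  zero := rat_zero hT
  sum := rat_sum hT

end Pool.Agent.Y691.TU
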