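import Pool.Agent.Y691.TU.EvDefs

/-!
# Critical motives with rational coefficients: definitions
-/

set_option autoImplicit false

open CategoryTheory CategoryTheory.Limits AlgebraicGeometry

namespace Pool.Agent.Y691.TU

universe v u

/-- Data for the motives over `ℚ` with rational coefficients: the Hodge numbers `hodge M p q`, the
dimension `eigen M p ε` of the `ε`-eigenspace of `F_∞` on `H^{p,p}`, the value `Lzero M` of the
`L`-function at `0`, and a representative `per M` of Deligne's period `c^+(M)`. -/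
structure RatValues (C : Type u) where
  hodge : C → ℤ → ℤ → ℕ
  eigen : C → ℤ → ℤˣ → ℕ
  Lzero : C → ℂ
  per : C → ℂ

variable {k : Type} [Field k] {C : Type u}

/-- The motive `M` is pure and critical (in terms of the Hodge numbers and of `F_∞`). -/
def PureCritical (T : RatValues C) (M : C) : Prop :=
  (∃ w : ℤ, ∀ p q : ℤ, T.hodge M p q ≠ 0 → p + q = w) ∧
  (∀ p q : ℤ, p ≠ q → T.hodge M p q ≠ 0 → min p q ≤ -1 ∧ 0 ≤ max p q) ∧
  ∀ (p : ℤ) (ε : ℤˣ), T.eigen M p ε ≠ 0 → (p < 0 → ε = 1) ∧ (0 ≤ p → ε = -1)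

/-- **Deligne's conjecture** for the motive `M`: if `M` is pure and critical, then `L(M, 0)` is a
rational multiple of `c^+(M)`. -/
def DeligneRat (T : RatValues C) (M : C) : Prop :=
  PureCritical T M → ∃ r : ℚ, T.Lzero M = r * T.per M

/-- Known properties: the Hodge numbers and the dimensions of the eigenspaces depend only on the
isomorphism class and are additive; for pure critical motives the values and the periods (up to
factors in `ℚ^×`) depend only on the isomorphism class and are multiplicative; they are `1` (up to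
such a factor) for the zero motive. -/
structure IsRatValues [Category.{v} C] [Abelian C] (T : RatValues C) : Prop where
  hodge_iso : ∀ A B : C, Nonempty (A ≅ B) → (∀ p q, T.hodge A p q = T.hodge B p q) ∧
    ∀ p ε, T.eigen A p ε = T.eigen B p ε
  hodge_sum : ∀ A B : C, (∀ p q, T.hodge (A ⊞ B) p q = T.hodge A p q + T.hodge B p q) ∧
    ∀ p ε, T.eigen (A ⊞ B) p ε = T.eigen A p ε + T.eigen B p ε
  iso : ∀ A B : C, Nonempty (A ≅ B) → PureCritical T A → T.Lzero A = T.Lzero B ∧
    ∃ r : ℚ, r ≠ 0 ∧ T.per B = r * T.per A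
  zero : ∀ A : C, IsZero A → T.Lzero A = 1 ∧ ∃ r : ℚ, r ≠ 0 ∧ T.per A = r
  sum : ∀ A B : C, PureCritical T (A ⊞ B) → T.Lzero (A ⊞ B) = T.Lzero A * T.Lzero B ∧
    ∃ r : ℚ, r ≠ 0 ∧ T.per (A ⊞ B) = r * (T.per A * T.per B)

end Pool.Agent.Y691.TU
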