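import Pool.Agent.Y691.TU.EvDefs

/-!
# Ratios of successive critical values: definitions
-/

set_option autoImplicit false

open CategoryTheory CategoryTheory.Limits AlgebraicGeometry TensorProduct

namespace Pool.Agent.Y691.TU

universe v u

/-- Data for the motives `M₀` over the totally imaginary number field `F` with coefficients in the
number field `E`, with `M = Res_{F/ℚ} M₀`: the Hodge numbers `hodge M₀ p q` of `M`, the rank
`rank M₀` of `M₀` over `E`, and the values `Lval M₀ m` in `E ⊗ ℂ` at the integers `m` of the completed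
`L`-function of `M`. -/
structure Completed (E : Type) [Field E] [Algebra ℚ E] (C : Type u) where
  hodge : C → ℤ → ℤ → ℕ
  rank : C → ℕ
  Lval : C → ℤ → E ⊗[ℚ] ℂ

variable {k : Type} [Field k] {E : Type} [Field E] [Algebra ℚ E] {C : Type u}

/-- `M₀` is pure of some weight `w` and `Res M₀` has no middle Hodge type `(w / 2, w / 2)`. -/
def NoMiddle (T : Completed E C) (M : C) : Prop :=
  (∃ w : ℤ, ∀ p q : ℤ, T.hodge M p q ≠ 0 → p + q = w) ∧ ∀ p : ℤ, T.hodge M p p = 0

/-- The integer `m` is critical for `Res M₀`. -/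
def CriticalInteger (T : Completed E C) (M : C) (m : ℤ) : Prop :=
  ∀ p q : ℤ, p < q → T.hodge M p q ≠ 0 → p < m ∧ m ≤ q

/-- **The conjecture on successive critical values** for `M₀`, a motive over the field `F` of degree
`d`, with the number `Δ = Δ_F`: if `M₀` is pure and `Res M₀` has no middle Hodge type, then for all
integers `m` such that `m` and `m + 1` are critical and `L(m + 1, M)` is invertible in `E ⊗ ℂ`,
`L(m, M) = e (i ^ (d / 2) Δ) ^ n L(m + 1, M)` with the rank `n` of `M₀` and some `e` in `E^×`. -/
def RatioConjecture (T : Completed E C) (d : ℕ) (Δ : ℂ) (M : C) : Prop :=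
  NoMiddle T M → ∀ m : ℤ, CriticalInteger T M m → CriticalInteger T M (m + 1) →
    IsUnit (T.Lval M (m + 1)) → ∃ e : E, e ≠ 0 ∧
      T.Lval M m = (e ⊗ₜ[ℚ] (1 : ℂ)) *
        ((1 : E) ⊗ₜ[ℚ] (Complex.I ^ (d / 2) * Δ)) ^ (T.rank M) * T.Lval M (m + 1)

/-- Known properties: the Hodge numbers and the rank depend only on the isomorphism class, they are
additive, a motive without Hodge numbers is zero, the Tate twist `A ↦ A(-1)` shifts the Hodge
numbers, and the unit motive has no Hodge numbers outside the diagonal; for pure motives without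
middle Hodge type the values at the critical integers depend only on the isomorphism class and are
multiplicative, and they are `1` for the zero motive. -/
structure IsCompleted [Category.{v} C] [Abelian C] (T : Completed E C) (D : Graded k C) : Prop where
  hodge_iso : ∀ A B : C, Nonempty (A ≅ B) → T.rank A = T.rank B ∧
    ∀ p q, T.hodge A p q = T.hodge B p q
  hodge_sum : ∀ A B : C, T.rank (A ⊞ B) = T.rank A + T.rank B ∧
    ∀ p q : ℤ, T.hodge (A ⊞ B) p q = T.hodge A p q + T.hodge B p q
  faithful : ∀ A : C, (∀ p q, T.hodge A p q = 0) → IsZero A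
  twist : ∀ (A : C) (p q : ℤ), T.hodge (D.L.obj A) (p + 1) (q + 1) = T.hodge A p q
  unit : ∀ p q : ℤ, p ≠ q → T.hodge D.one p q = 0
  iso : ∀ A B : C, Nonempty (A ≅ B) → NoMiddle T A → ∀ m, CriticalInteger T A m →
    T.Lval A m = T.Lval B m
  zero : ∀ A : C, IsZero A → T.rank A = 0 ∧ ∀ m, T.Lval A m = 1
  sum : ∀ A B : C, NoMiddle T (A ⊞ B) → ∀ m, CriticalInteger T (A ⊞ B) m →
    T.Lval (A ⊞ B) m = T.Lval A m * T.Lval B m

end Pool.Agent.Y691.TU
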