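import Pool.Agent.Y691.TU.SemDefs
import Pool.Agent.Y691.TU.Unit

/-!
# Semisimplicity of Galois representations
-/

set_option autoImplicit false

open CategoryTheory CategoryTheory.Limits AlgebraicGeometry

namespace Pool.Agent.Y691.TU

open Pool.Agent.Y116.UV Pool.Agent.Y101.Th Pool.Agent.Z125.UN

universe v u w

section

variable {k : Type} [Field k] {C : Type u} [Category.{v} C] [Abelian C] {D : Graded k C}

lemma unit_of (hk : Resolution k) (hD : IsGraded D) {Q : ℤ → C → Prop}
    (hs : ∀ w A B (s : A ⟶ B) (r : B ⟶ A), s ≫ r = 𝟙 A → Q w B → Q w A)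
    (h : ∀ X : Sch k, SmProj X → topologicalKrullDim X.left ≤ 0 → ∀ i, Q i (D.H X i i)) :
    Q 0 D.one := by
  obtain ⟨X, hX, hd, e⟩ := exists_point hk
  obtain ⟨e1⟩ := hD.iso (ft_aff True) e 0 0
  obtain ⟨e2⟩ := hD.point.1
  exact hs _ _ _ (e2.inv ≫ e1.hom) (e1.inv ≫ e2.hom) (by simp) (h X hX hd 0)

variable {Ω G : Type} [Field Ω] [Group G] (F : Realisation.{v, u, w} C Ω G) [F.Additive]

/-- the realisation of `A` is semisimple -/
abbrev SemiAt (A : C) : Prop := IsSemisimpleModule (MonoidAlgebra Ω G) (F.obj A)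

lemma map_comp_apply {A B A' : C} (s : A ⟶ B) (r : B ⟶ A') (x : F.obj A) :
    (F.map r) ((F.map s) x) = (F.map (s ≫ r)) x := by
  rw [F.map_comp]
  rfl

lemma semi_summand {A B : C} (s : A ⟶ B) (r : B ⟶ A) (h : s ≫ r = 𝟙 A) (hB : SemiAt F B) :
    SemiAt F A := by
  refine IsSemisimpleModule.of_injective (F.map s).hom ?_
  intro x y hxy
  have h1 : (F.map r) ((F.map s) x) = (F.map r) ((F.map s) y) := congrArg _ hxy
  rw [map_comp_apply, map_comp_apply, h, F.map_id] at h1
  exact h1

lemma semi_zero {A : C} (h : IsZero A) : SemiAt F A := by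
  have h1 : F.map (𝟙 A) = 0 := by rw [(IsZero.iff_id_eq_zero A).mp h, F.map_zero]
  rw [F.map_id] at h1
  have : Subsingleton (F.obj A) := by
    refine ⟨fun x y => ?_⟩
    have h2 : ∀ x : F.obj A, x = 0 := fun x => by
      have h3 := congrArg (fun f => f x) (congrArg ModuleCat.Hom.hom h1)
      exact h3
    rw [h2 x, h2 y]
  have h4 : Subsingleton (Submodule (MonoidAlgebra Ω G) (F.obj A)) :=
    (Submodule.subsingleton_iff _).mpr this
  exact (isSemisimpleModule_iff _ _).mpr Subsingleton.instComplementedLattice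

lemma semi_range {A B : C} (s : A ⟶ B) (hA : SemiAt F A) :
    IsSemisimpleModule (MonoidAlgebra Ω G) (LinearMap.range (F.map s).hom) :=
  IsSemisimpleModule.congr (LinearMap.quotKerEquivRange (F.map s).hom).symm

lemma semi_sum {A B : C} (hA : SemiAt F A) (hB : SemiAt F B) : SemiAt F (A ⊞ B) := by
  have h1 := semi_range F (biprod.inl : A ⟶ A ⊞ B) hA
  have h2 := semi_range F (biprod.inr : B ⟶ A ⊞ B) hB
  have h3 := IsSemisimpleModule.sup h1 h2
  have h4 : LinearMap.range (F.map (biprod.inl : A ⟶ A ⊞ B)).hom ⊔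
      LinearMap.range (F.map (biprod.inr : B ⟶ A ⊞ B)).hom = ⊤ := by
    rw [eq_top_iff]
    intro x _
    rw [Submodule.mem_sup]
    refine ⟨(F.map biprod.inl) ((F.map biprod.fst) x), ⟨_, rfl⟩,
      (F.map biprod.inr) ((F.map biprod.snd) x), ⟨_, rfl⟩, ?_⟩
    rw [map_comp_apply, map_comp_apply]
    have h5 : F.map (biprod.fst ≫ biprod.inl : A ⊞ B ⟶ _) +
        F.map (biprod.snd ≫ biprod.inr : A ⊞ B ⟶ _) = 𝟙 _ := by
      rw [← F.map_add, biprod.total, F.map_id]
    exact congrArg (fun f => f x) (congrArg ModuleCat.Hom.hom h5)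
  rw [h4] at h3
  exact IsSemisimpleModule.congr Submodule.topEquiv.symm

lemma semi_twist {L : C ⥤ C} (hL : TwistLattice F L) (A : C) :
    SemiAt F (L.obj A) ↔ SemiAt F A := by
  obtain ⟨e⟩ := hL A
  change IsSemisimpleModule _ _ ↔ IsSemisimpleModule _ _
  rw [isSemisimpleModule_iff, isSemisimpleModule_iff]
  exact e.complementedLattice_iff

/-- Semisimplicity of the realisations is stable. -/
lemma stable_semi (hL : TwistLattice F D.L) (h1 : SemiAt F D.one) :
    Stable D (fun _ => SemiAt F) where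
  zero _ _ hA := semi_zero F hA
  sum _ _ _ hA hB := semi_sum F hA hB
  summand _ _ _ s r h hB := semi_summand F s r h hB
  twist _ A := semi_twist F hL A
  unit := h1

end

end Pool.Agent.Y691.TU
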