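import Pool.Agent.Y691.TU.Defs

/-!
# Galois representations of motives: definitions
-/

set_option autoImplicit false

open CategoryTheory CategoryTheory.Limits AlgebraicGeometry

namespace Pool.Agent.Y691.TU

universe v u w

/-- The étale realisation `F` of the category `C` of motives with values in the representations of the
group `G` over the field `Ω`, that is in the modules over the group algebra. -/
abbrev Realisation (C : Type u) [Category.{v} C] (Ω G : Type) [Field Ω] [Group G] :=
  C ⥤ ModuleCat.{w} (MonoidAlgebra Ω G)

/-- The stable subspaces of `F(A(-1))` are those of `F(A)`: the lattices of subrepresentations are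
isomorphic. -/
def TwistLattice {C : Type u} [Category.{v} C] {Ω G : Type} [Field Ω] [Group G]
    (F : Realisation.{v, u, w} C Ω G) (L : C ⥤ C) : Prop :=
  ∀ A : C, Nonempty (Submodule (MonoidAlgebra Ω G) (F.obj (L.obj A)) ≃o
    Submodule (MonoidAlgebra Ω G) (F.obj A))

end Pool.Agent.Y691.TU
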