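import Pool.Agent.Y691.TU.WmDefs
import Pool.Agent.Y691.TU.Sem

/-!
# The monodromy-weight property
-/

set_option autoImplicit false

open CategoryTheory CategoryTheory.Limits AlgebraicGeometry

namespace Pool.Agent.Y691.TU

open Pool.Agent.Y116.UV Pool.Agent.Y101.Th Pool.Agent.Z125.UN

universe v u w

section weil

variable {Ω : Type} [Field Ω] [Algebra ℚ Ω]

lemma weil_scale {c : Ω} {q : ℕ} (hq : 0 < q) (j : ℤ) {r : ℝ}
    (h : IsWeil (((q : Ω) ^ j) * c) r) : IsWeil c (r / (q : ℝ) ^ j) := by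
  obtain ⟨h1, h2⟩ := h
  have : CharZero Ω := charZero_of_injective_algebraMap (algebraMap ℚ Ω).injective
  have hq0 : (q : Ω) ≠ 0 := by exact_mod_cast hq.ne'
  have hqm : ((q : Ω) ^ j) ∈ algebraicClosure ℚ Ω :=
    zpow_mem (natCast_mem _ q) j
  have hc : c ∈ algebraicClosure ℚ Ω := by
    have h3 : c = ((q : Ω) ^ j)⁻¹ * (((q : Ω) ^ j) * c) := by
      rw [← mul_assoc, inv_mul_cancel₀ (zpow_ne_zero _ hq0), one_mul]
    rw [h3]
    exact mul_mem (inv_mem hqm) h1
  refine ⟨hc, fun φ => ?_⟩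
  have h4 := h2 φ
  have h5 : (⟨((q : Ω) ^ j) * c, h1⟩ : algebraicClosure ℚ Ω) =
      ((q : algebraicClosure ℚ Ω) ^ j) * ⟨c, hc⟩ := by
    have h6 := map_zpow₀ (algebraMap (algebraicClosure ℚ Ω) Ω) (q : algebraicClosure ℚ Ω) j
    rw [map_natCast] at h6
    apply Subtype.ext
    change (q : Ω) ^ j * c = (algebraMap (algebraicClosure ℚ Ω) Ω)
      ((q : algebraicClosure ℚ Ω) ^ j) * c
    rw [h6]
  rw [h5, map_mul, map_zpow₀, map_natCast, norm_mul, norm_zpow, Complex.norm_natCast] at h4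
  rw [← h4]
  have h6 : ((q : ℝ) ^ j) ≠ 0 := zpow_ne_zero _ (by exact_mod_cast hq.ne')
  field_simp

end weil

section transfer

variable {Ω : Type} [Field Ω] [Algebra ℚ Ω] {V V' W : Type} [AddCommGroup V] [Module Ω V]
  [AddCommGroup V'] [Module Ω V'] {N : V →ₗ[Ω] V} {N' : V' →ₗ[Ω] V'} {ρ : W → V →ₗ[Ω] V}
  {ρ' : W → V' →ₗ[Ω] V'} {deg : W → ℤ} {q : ℕ}

lemma pow_comm (e : V ≃ₗ[Ω] V') (hN : ∀ x, e (N x) = N' (e x)) (s : ℕ) (x : V) :
    e ((N ^ s) x) = (N' ^ s) (e x) := by
  induction s generalizing x with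
  | zero => rfl
  | succ s ih =>
    rw [pow_succ, pow_succ, Module.End.mul_apply, Module.End.mul_apply, ih, hN]

lemma wm_transfer (hq : 0 < q) (k m : ℤ) (e : V ≃ₗ[Ω] V') (hN : ∀ x, e (N x) = N' (e x))
    (hρ : ∀ g x, e (ρ g x) = ((q : Ω) ^ (deg g * k)) • ρ' g (e x))
    (h : MonodromyWeight N ρ deg q (m + 2 * k)) : MonodromyWeight N' ρ' deg q m := by
  have : CharZero Ω := charZero_of_injective_algebraMap (algebraMap ℚ Ω).injective
  have hq0 : (q : Ω) ≠ 0 := by exact_mod_cast hq.ne'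
  obtain ⟨M, hM, hw⟩ := h
  have hmem : ∀ s (y : V'), y ∈ (M s).map (e : V →ₗ[Ω] V') ↔ e.symm y ∈ M s := fun s y => by
    rw [Submodule.mem_map_equiv]
  refine ⟨fun s => (M s).map (e : V →ₗ[Ω] V'), ⟨?_, ?_, ?_, ?_, ?_, ?_⟩, ?_⟩
  · intro a b hab
    exact Submodule.map_mono (hM.mono hab)
  · obtain ⟨s, hs⟩ := hM.bot
    exact ⟨s, by change (M s).map _ = ⊥; rw [hs, Submodule.map_bot]⟩
  · obtain ⟨s, hs⟩ := hM.top
    refine ⟨s, ?_⟩
    change (M s).map _ = ⊤
    rw [hs, Submodule.map_top, LinearEquiv.range]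
  · intro s y hy
    rw [hmem] at hy ⊢
    have h1 : e.symm (N' y) = N (e.symm y) := by
      apply e.injective
      rw [e.apply_symm_apply, hN, e.apply_symm_apply]
    rw [h1]
    exact hM.shift s _ hy
  · intro s y hy h2
    rw [hmem] at hy h2 ⊢
    have h1 : e.symm ((N' ^ s) y) = (N ^ s) (e.symm y) := by
      apply e.injective
      rw [e.apply_symm_apply, pow_comm e hN, e.apply_symm_apply]
    rw [h1] at h2
    exact hM.inj s _ hy h2
  · intro s y hy
    rw [hmem] at hy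
    obtain ⟨x, hx, h2⟩ := hM.surj s _ hy
    refine ⟨e x, ?_, ?_⟩
    · rw [hmem, e.symm_apply_apply]
      exact hx
    · rw [hmem, map_sub, ← pow_comm e hN, e.symm_apply_apply]
      exact h2
  · intro s g
    obtain ⟨hst, hev⟩ := hw s g
    have h1 : ∀ y, e.symm (ρ' g y) = ((q : Ω) ^ (deg g * k))⁻¹ • ρ g (e.symm y) := by
      intro y
      apply e.injective
      rw [e.apply_symm_apply, map_smul, hρ, e.apply_symm_apply, smul_smul,
        inv_mul_cancel₀ (zpow_ne_zero _ hq0), one_smul]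
    refine ⟨?_, ?_⟩
    · intro y hy
      rw [hmem] at hy ⊢
      rw [h1]
      exact Submodule.smul_mem _ _ (hst _ hy)
    · intro y hy hy' c hc
      rw [hmem] at hy hy' hc
      have h2 : ρ g (e.symm y) - (((q : Ω) ^ (deg g * k)) * c) • e.symm y ∈ M (s - 1) := by
        have h3 := Submodule.smul_mem (M (s - 1)) ((q : Ω) ^ (deg g * k)) hc
        rw [map_sub, h1, map_smul, smul_sub, smul_smul,
          mul_inv_cancel₀ (zpow_ne_zero _ hq0), one_smul, smul_smul] at h3
        exact h3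
      have h4 := weil_scale hq _ (hev _ hy hy' _ h2)
      have hqr : (0 : ℝ) < q := by exact_mod_cast hq
      have h5 : (q : ℝ) ^ ((deg g * (m + 2 * k + s) : ℤ) / 2 : ℝ) / (q : ℝ) ^ (deg g * k) =
          (q : ℝ) ^ ((deg g * (m + s) : ℤ) / 2 : ℝ) := by
        rw [← Real.rpow_intCast, ← Real.rpow_sub hqr]
        congr 1
        push_cast
        ring
      rw [h5] at h4
      exact h4

lemma wm_prod {m : ℤ} (h : MonodromyWeight N ρ deg q m) (h' : MonodromyWeight N' ρ' deg q m) :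
    MonodromyWeight (N.prodMap N') (fun g => (ρ g).prodMap (ρ' g)) deg q m := by
  obtain ⟨M, hM, hw⟩ := h
  obtain ⟨M', hM', hw'⟩ := h'
  have hpow : ∀ (s : ℕ) (x : V × V'), ((N.prodMap N') ^ s) x = ((N ^ s) x.1, (N' ^ s) x.2) := by
    intro s
    induction s with
    | zero => intro x; rfl
    | succ s ih =>
      intro x
      rw [pow_succ, pow_succ, pow_succ, Module.End.mul_apply, ih, Module.End.mul_apply,
        Module.End.mul_apply]
      rfl
  refine ⟨fun s => (M s).prod (M' s), ⟨?_, ?_, ?_, ?_, ?_, ?_⟩, ?_⟩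
  · intro a b hab
    exact Submodule.prod_mono (hM.mono hab) (hM'.mono hab)
  · obtain ⟨s, hs⟩ := hM.bot
    obtain ⟨s', hs'⟩ := hM'.bot
    refine ⟨min s s', ?_⟩
    have h1 : M (min s s') = ⊥ := le_bot_iff.mp ((hM.mono (min_le_left _ _)).trans_eq hs)
    have h2 : M' (min s s') = ⊥ := le_bot_iff.mp ((hM'.mono (min_le_right _ _)).trans_eq hs')
    change (M _).prod (M' _) = ⊥
    rw [h1, h2, Submodule.prod_bot]
  · obtain ⟨s, hs⟩ := hM.top
    obtain ⟨s', hs'⟩ := hM'.top
    refine ⟨max s s', ?_⟩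
    have h1 : M (max s s') = ⊤ := top_le_iff.mp (hs.ge.trans (hM.mono (le_max_left _ _)))
    have h2 : M' (max s s') = ⊤ := top_le_iff.mp (hs'.ge.trans (hM'.mono (le_max_right _ _)))
    change (M _).prod (M' _) = ⊤
    rw [h1, h2, Submodule.prod_top]
  · rintro s ⟨x, y⟩ ⟨hx, hy⟩
    exact ⟨hM.shift s x hx, hM'.shift s y hy⟩
  · rintro s ⟨x, y⟩ ⟨hx, hy⟩ h2
    rw [hpow] at h2
    exact ⟨hM.inj s x hx h2.1, hM'.inj s y hy h2.2⟩
  · rintro s ⟨x, y⟩ ⟨hx, hy⟩
    obtain ⟨x', hx', h1⟩ := hM.surj s x hx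
    obtain ⟨y', hy', h2⟩ := hM'.surj s y hy
    refine ⟨(x', y'), ⟨hx', hy'⟩, ?_⟩
    rw [hpow]
    exact ⟨h1, h2⟩
  · intro s g
    obtain ⟨hst, hev⟩ := hw s g
    obtain ⟨hst', hev'⟩ := hw' s g
    refine ⟨?_, ?_⟩
    · rintro ⟨x, y⟩ ⟨hx, hy⟩
      exact ⟨hst x hx, hst' y hy⟩
    · rintro ⟨x, y⟩ ⟨hx, hy⟩ hn c ⟨hcx, hcy⟩
      by_cases h1 : x ∈ M (s - 1)
      · refine hev' y hy (fun h2 => hn ⟨h1, h2⟩) c hcy
      · exact hev x hx h1 c hcx

lemma wm_subsingleton [Subsingleton V] (m : ℤ) : MonodromyWeight N ρ deg q m := by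
  have h0 : ∀ (x : V) (P : Submodule Ω V), x ∈ P := fun x P => by
    rw [Subsingleton.elim x 0]
    exact P.zero_mem
  refine ⟨fun _ => ⊥, ⟨monotone_const, ⟨0, rfl⟩, ⟨0, ?_⟩, fun _ _ _ => h0 _ _,
    fun _ _ _ _ => h0 _ _, fun _ y _ => ⟨0, h0 _ _, h0 _ _⟩⟩, fun s g =>
    ⟨fun _ _ => h0 _ _, fun x _ hx => absurd (h0 _ _) hx⟩⟩
  rw [eq_top_iff]
  exact fun x _ => h0 x _

end transfer

section

variable {k : Type} [Field k] {C : Type u} [Category.{v} C] [Abelian C] {D : Graded k C}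
  {Ω W : Type} [Field Ω] [Algebra ℚ Ω] {R : LocalRealisation C Ω W} {deg : W → ℤ} {q : ℕ}

/-- the property for all direct summands -/
def AllSummands (P : ℤ → C → Prop) (m : ℤ) (A : C) : Prop :=
  ∀ (B : C) (s : B ⟶ A) (r : A ⟶ B), s ≫ r = 𝟙 B → P m B

lemma AllSummands.self {P : ℤ → C → Prop} {m : ℤ} {A : C} (h : AllSummands P m A) : P m A :=
  h A (𝟙 A) (𝟙 A) (Category.id_comp _)

lemma mw_iso (hq : 0 < q) {m : ℤ} {A B : C} (h : Nonempty (A ≅ B)) (hA : MWAt R deg q m A) :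
    MWAt R deg q m B := by
  obtain ⟨e⟩ := h
  refine wm_transfer hq 0 m (R.F.mapIso e).toLinearEquiv ?_ ?_ (by simpa [MWAt] using hA)
  · intro x
    have h1 := R.N.naturality e.hom
    exact (congrArg (fun f => f x) (congrArg ModuleCat.Hom.hom h1)).symm
  · intro g x
    rw [mul_zero, zpow_zero, one_smul]
    have h1 := (R.ρ g).naturality e.hom
    exact (congrArg (fun f => f x) (congrArg ModuleCat.Hom.hom h1)).symm

lemma mw_zero [R.F.Additive] {m : ℤ} {A : C} (h : IsZero A) : MWAt R deg q m A := by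
  have h1 : R.F.map (𝟙 A) = 0 := by rw [(IsZero.iff_id_eq_zero A).mp h, R.F.map_zero]
  rw [R.F.map_id] at h1
  have : Subsingleton (R.F.obj A) := by
    refine ⟨fun x y => ?_⟩
    have h2 : ∀ x : R.F.obj A, x = 0 := fun x => by
      have h3 := congrArg (fun f => f x) (congrArg ModuleCat.Hom.hom h1)
      exact h3
    rw [h2 x, h2 y]
  exact wm_subsingleton m

/-- the realisation of a direct sum -/
noncomputable def sumEquiv [R.F.Additive] (A B : C) :
    (R.F.obj A × R.F.obj B) ≃ₗ[Ω] R.F.obj (A ⊞ B) :=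
  LinearEquiv.ofLinear
    ((R.F.map biprod.inl).hom.coprod (R.F.map biprod.inr).hom)
    ((R.F.map biprod.fst).hom.prod (R.F.map biprod.snd).hom)
    (by
      ext x
      change (R.F.map biprod.inl).hom ((R.F.map biprod.fst).hom x) +
        (R.F.map biprod.inr).hom ((R.F.map biprod.snd).hom x) = x
      have h5 : R.F.map (biprod.fst ≫ biprod.inl : A ⊞ B ⟶ _) +
          R.F.map (biprod.snd ≫ biprod.inr : A ⊞ B ⟶ _) = 𝟙 _ := by
        rw [← R.F.map_add, biprod.total, R.F.map_id]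
      rw [R.F.map_comp, R.F.map_comp] at h5
      exact congrArg (fun f => f x) (congrArg ModuleCat.Hom.hom h5))
    (by
      have hf : ∀ {X Y Z : C} (s : X ⟶ Y) (r : Y ⟶ Z) (x : R.F.obj X),
          (R.F.map r).hom ((R.F.map s).hom x) = (R.F.map (s ≫ r)).hom x := by
        intro X Y Z s r x
        rw [R.F.map_comp]
        rfl
      apply LinearMap.ext
      rintro ⟨x, y⟩
      change ((R.F.map biprod.fst).hom ((R.F.map biprod.inl).hom x +
        (R.F.map biprod.inr).hom y), (R.F.map biprod.snd).hom ((R.F.map biprod.inl).hom x +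
        (R.F.map biprod.inr).hom y)) = (x, y)
      rw [map_add, map_add, hf, hf, hf, hf, biprod.inl_fst, biprod.inr_fst, biprod.inl_snd,
        biprod.inr_snd, R.F.map_id, R.F.map_id, R.F.map_zero, R.F.map_zero]
      change (x + 0, 0 + y) = (x, y)
      rw [add_zero, zero_add])

lemma nat_apply {F : C ⥤ ModuleCat.{0} Ω} (η : F ⟶ F) {A B : C} (f : A ⟶ B) (x : F.obj A) :
    (F.map f).hom ((η.app A).hom x) = (η.app B).hom ((F.map f).hom x) :=
  (congrArg (fun f => f x) (congrArg ModuleCat.Hom.hom (η.naturality f))).symm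

lemma mw_sum [R.F.Additive] (hq : 0 < q) {m : ℤ} {A B : C} (hA : MWAt R deg q m A)
    (hB : MWAt R deg q m B) : MWAt R deg q m (A ⊞ B) := by
  have h := wm_prod hA hB
  have hc : ∀ (η : R.F ⟶ R.F) (x : R.F.obj A × R.F.obj B), sumEquiv (R := R) A B
      (((η.app A).hom.prodMap (η.app B).hom) x) = (η.app (A ⊞ B)).hom (sumEquiv (R := R) A B x) := by
    rintro η ⟨x, y⟩
    change (R.F.map biprod.inl).hom ((η.app A).hom x) + (R.F.map biprod.inr).hom
      ((η.app B).hom y) = (η.app (A ⊞ B)).hom ((R.F.map biprod.inl).hom x +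
        (R.F.map biprod.inr).hom y)
    rw [map_add, nat_apply, nat_apply]
  refine wm_transfer hq 0 m (sumEquiv (R := R) A B) (fun x => hc R.N x) (fun g x => ?_)
    (by simpa using h)
  rw [mul_zero, zpow_zero, one_smul]
  exact hc (R.ρ g) x

lemma mw_twist (hR : IsLocalRealisation R D.L deg q) (hq : 0 < q) (m : ℤ) (A : C) :
    MWAt R deg q (m + 2) (D.L.obj A) ↔ MWAt R deg q m A := by
  have : CharZero Ω := charZero_of_injective_algebraMap (algebraMap ℚ Ω).injective
  have hq0 : (q : Ω) ≠ 0 := by exact_mod_cast hq.ne'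
  obtain ⟨e, h1, h2⟩ := hR.twist A
  constructor
  · intro h
    refine wm_transfer hq 1 m e h1 (fun g x => ?_) (by simpa [MWAt] using h)
    rw [mul_one]
    exact h2 g x
  · intro h
    have hm : m = (m + 2) + 2 * (-1) := by ring
    rw [hm] at h
    refine wm_transfer hq (-1) (m + 2) e.symm (fun x => ?_) (fun g x => ?_) h
    · apply e.injective
      rw [e.apply_symm_apply]
      have := h1 (e.symm x)
      rw [e.apply_symm_apply] at this
      exact this.symm
    · apply e.injective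
      rw [e.apply_symm_apply, map_smul]
      have := h2 g (e.symm x)
      rw [e.apply_symm_apply] at this
      erw [this]
      rw [smul_smul, ← zpow_add₀ hq0]
      have h3 : deg g * -1 + deg g = 0 := by ring
      rw [h3, zpow_zero, one_smul]

/-- The monodromy-weight property for all direct summands is stable. -/
lemma stable_mw (hC : Semisimple C) [D.L.IsEquivalence] (hR : IsLocalRealisation R D.L deg q)
    (hq : 0 < q) (h1 : AllSummands (MWAt R deg q) 0 D.one) :
    Stable D (AllSummands (MWAt R deg q)) where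
  zero w A hA := by
    have := hR.additive
    intro B s r h
    refine mw_zero ?_
    rw [IsZero.iff_id_eq_zero, ← h, hA.eq_of_tgt s 0, zero_comp]
  sum w A A' hA hA' := by
    have := hR.additive
    intro B s r h
    obtain ⟨K, I, s1, r1, s2, r2, h1, h2, ⟨e⟩⟩ := split_summand hC s r h
    exact mw_iso hq ⟨e.symm⟩ (mw_sum hq (hA K s1 r1 h1) (hA' I s2 r2 h2))
  summand w A B s r h hB := by
    intro B1 s1 r1 h1
    refine hB B1 (s1 ≫ s) (r ≫ r1) ?_
    rw [Category.assoc, ← Category.assoc s r r1, h, Category.id_comp, h1]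
  twist w A := by
    constructor
    · intro h B s r hs
      rw [← mw_twist (D := D) hR hq w B]
      refine h (D.L.obj B) (D.L.map s) (D.L.map r) ?_
      rw [← D.L.map_comp, hs, D.L.map_id]
    · intro h B s r hs
      let e := D.L.objObjPreimageIso B
      have h1 : D.L.preimage (e.hom ≫ s) ≫ D.L.preimage (r ≫ e.inv) =
          𝟙 (D.L.objPreimage B) := by
        apply D.L.map_injective
        rw [D.L.map_comp, D.L.map_preimage, D.L.map_preimage, D.L.map_id]
        simp only [Category.assoc]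
        rw [← Category.assoc s r, hs, Category.id_comp, Iso.hom_inv_id]
      have h2 := h (D.L.objPreimage B) _ _ h1
      rw [← mw_twist (D := D) hR hq w] at h2
      exact mw_iso hq ⟨e⟩ h2
  unit := h1

end

end Pool.Agent.Y691.TU
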