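import Pool.Agent.Y691.TU.Defs

/-!
# Weights and monodromy: definitions
-/

set_option autoImplicit false

open CategoryTheory CategoryTheory.Limits AlgebraicGeometry

namespace Pool.Agent.Y691.TU

universe v u w

/-- `λ` is an algebraic number, and every embedding of the field of algebraic numbers in `Ω` into `ℂ`
maps it to a complex number of absolute value `r`. -/
def IsWeil {Ω : Type} [Field Ω] [Algebra ℚ Ω] (x : Ω) (r : ℝ) : Prop :=
  ∃ h : x ∈ algebraicClosure ℚ Ω, ∀ φ : algebraicClosure ℚ Ω →+* ℂ, ‖φ ⟨x, h⟩‖ = r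

/-- `M` is the monodromy filtration of the endomorphism `N`: it is increasing, exhaustive and
separated, `N (M s) ⊆ M (s - 2)`, and `N ^ s` induces isomorphisms `gr_s → gr_{-s}` for `s ≥ 0`. -/
structure IsMonodromy {Ω V : Type} [Field Ω] [AddCommGroup V] [Module Ω V] (N : V →ₗ[Ω] V)
    (M : ℤ → Submodule Ω V) : Prop where
  mono : Monotone M
  bot : ∃ s, M s = ⊥
  top : ∃ s, M s = ⊤
  shift : ∀ s, ∀ x ∈ M s, N x ∈ M (s - 2)
  inj : ∀ (s : ℕ), ∀ x ∈ M s, (N ^ s) x ∈ M (-s - 1) → x ∈ M (s - 1)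
  surj : ∀ (s : ℕ), ∀ y ∈ M (-s), ∃ x ∈ M s, y - (N ^ s) x ∈ M (-s - 1)

/-- **The monodromy-weight property** of weight `m` for a vector space `V` with an endomorphism `N` and
operators `ρ g`: every eigenvalue of `ρ g` on the graded piece `gr_s = M s / M (s - 1)` of the
monodromy filtration `M` of `N` is an algebraic number all of whose complex conjugates have absolute
value `q ^ (deg g * (m + s) / 2)`. -/
def MonodromyWeight {Ω V W : Type} [Field Ω] [Algebra ℚ Ω] [AddCommGroup V] [Module Ω V]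
    (N : V →ₗ[Ω] V) (ρ : W → V →ₗ[Ω] V) (deg : W → ℤ) (q : ℕ) (m : ℤ) : Prop :=
  ∃ M : ℤ → Submodule Ω V, IsMonodromy N M ∧
    ∀ (s : ℤ) (g : W), (∀ x ∈ M s, ρ g x ∈ M s) ∧
      ∀ x : V, x ∈ M s → x ∉ M (s - 1) → ∀ c : Ω, ρ g x - c • x ∈ M (s - 1) →
        IsWeil c ((q : ℝ) ^ ((deg g * (m + s) : ℤ) / 2 : ℝ))

/-- The realisation functor `F` from the category `C` of motives to vector spaces over `Ω`, with the
monodromy operator `N` and the operators `ρ g`, both natural in the motive. -/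
structure LocalRealisation (C : Type u) [Category.{v} C] (Ω W : Type) [Field Ω] where
  F : C ⥤ ModuleCat.{0} Ω
  N : F ⟶ F
  ρ : W → (F ⟶ F)

variable {C : Type u} [Category.{v} C] {Ω W : Type} [Field Ω] [Algebra ℚ Ω]

/-- The monodromy-weight property of weight `m` for the realisation of the motive `A`. -/
def MWAt (R : LocalRealisation C Ω W) (deg : W → ℤ) (q : ℕ) (m : ℤ) (A : C) : Prop :=
  MonodromyWeight (R.N.app A).hom (fun g => (R.ρ g |>.app A).hom) deg q m

/-- Known properties of the realisation: it is additive, and the realisation of the Tate twist `A(-1)`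
is the one of `A`, with the same `N`, and with `ρ g` multiplied by `q ^ (deg g)`. -/
structure IsLocalRealisation (R : LocalRealisation C Ω W) (L : C ⥤ C) [Preadditive C]
    (deg : W → ℤ) (q : ℕ) : Prop where
  additive : R.F.Additive
  twist : ∀ A : C, ∃ e : R.F.obj (L.obj A) ≃ₗ[Ω] R.F.obj A,
    (∀ x, e ((R.N.app (L.obj A)) x) = (R.N.app A) (e x)) ∧
    ∀ g x, e ((R.ρ g |>.app (L.obj A)) x) = ((q : Ω) ^ deg g) • ((R.ρ g |>.app A) (e x))

end Pool.Agent.Y691.TU
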