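import Pool.Agent.Y691.TU.Wm

/-!
# Functoriality of the monodromy filtration
-/

set_option autoImplicit false

open CategoryTheory CategoryTheory.Limits AlgebraicGeometry

namespace Pool.Agent.Y691.TU

universe v u w

section func

variable {Ω : Type} [Field Ω] {V V' : Type} [AddCommGroup V] [Module Ω V]
  [AddCommGroup V'] [Module Ω V'] {N : V →ₗ[Ω] V} {N' : V' →ₗ[Ω] V'}
  {M : ℤ → Submodule Ω V} {M' : ℤ → Submodule Ω V'}

lemma mono_pow (hM : IsMonodromy N M) (s : ℤ) (n : ℕ) : ∀ x ∈ M s, (N ^ n) x ∈ M (s - 2 * n) := by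
  induction n with
  | zero =>
    intro x hx
    have h : s - 2 * ((0 : ℕ) : ℤ) = s := by simp
    rw [h]
    exact hx
  | succ n ih =>
    intro x hx
    rw [pow_succ', Module.End.mul_apply]
    have h := hM.shift _ _ (ih x hx)
    have h2 : s - 2 * (n : ℤ) - 2 = s - 2 * ((n + 1 : ℕ) : ℤ) := by push_cast; ring
    rw [h2] at h
    exact h

lemma map_pow (f : V →ₗ[Ω] V') (hf : ∀ x, f (N x) = N' (f x)) (n : ℕ) (x : V) :
    f ((N ^ n) x) = (N' ^ n) (f x) := by
  induction n generalizing x with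
  | zero => rfl
  | succ n ih =>
    rw [pow_succ, pow_succ, Module.End.mul_apply, Module.End.mul_apply, ih, hf]

/-- Linear maps commuting with the monodromy operators respect the monodromy filtrations. -/
theorem mono_func (hM : IsMonodromy N M) (hM' : IsMonodromy N' M') (f : V →ₗ[Ω] V')
    (hf : ∀ x, f (N x) = N' (f x)) (s : ℤ) : ∀ x ∈ M s, f x ∈ M' s := by
  obtain ⟨a, ha⟩ := hM.bot
  obtain ⟨b, hb⟩ := hM'.top
  -- a bound beyond which everything is trivial
  let B : ℕ := a.natAbs + b.natAbs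
  have hbot : ∀ s : ℤ, s ≤ -B → M s = ⊥ := by
    intro s hs
    have h1 : s ≤ a := by omega
    exact le_bot_iff.mp ((hM.mono h1).trans_eq ha)
  have htop : ∀ s : ℤ, (B : ℤ) ≤ s → M' s = ⊤ := by
    intro s hs
    have h1 : b ≤ s := by omega
    exact top_le_iff.mp (hb.ge.trans (hM'.mono h1))
  -- descending induction on the absolute value
  have key : ∀ n : ℕ, ∀ u : ℕ, B ≤ n + u → (∀ x ∈ M (u : ℤ), f x ∈ M' (u : ℤ)) ∧
      ∀ x ∈ M (-(u : ℤ)), f x ∈ M' (-(u : ℤ)) := by
    intro n
    induction n with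
    | zero =>
      intro u hu
      constructor
      · intro x _
        rw [htop u (by omega)]
        trivial
      · intro x hx
        rw [hbot (-u) (by omega), Submodule.mem_bot] at hx
        rw [hx, map_zero]
        exact Submodule.zero_mem _
    | succ n ih =>
      intro u hu
      have hneg : ∀ r : ℤ, r < -(u : ℤ) → ∀ x ∈ M r, f x ∈ M' r := by
        intro r hr x hx
        obtain ⟨v, rfl⟩ : ∃ v : ℕ, r = -(v : ℤ) := ⟨r.natAbs, by omega⟩
        exact (ih v (by omega)).2 x hx
      have hpos : ∀ x ∈ M (u : ℤ), f x ∈ M' (u : ℤ) := by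
        intro x hx
        -- descend from the top
        have hd : ∀ j : ℕ, ∀ t : ℤ, t = (u : ℤ) + B - j → (u : ℤ) ≤ t → f x ∈ M' t := by
          intro j
          induction j with
          | zero =>
            intro t ht _
            rw [htop t (by omega)]
            trivial
          | succ j ihj =>
            intro t ht hut
            have h1 : f x ∈ M' (t + 1) := ihj (t + 1) (by omega) (by omega)
            obtain ⟨v, hv⟩ : ∃ v : ℕ, t + 1 = (v : ℤ) := ⟨(t + 1).natAbs, by omega⟩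
            rw [hv] at h1
            have h2 : (N ^ v) x ∈ M ((u : ℤ) - 2 * v) := mono_pow hM _ _ x hx
            have h3 := hneg _ (by omega) _ h2
            rw [map_pow f hf] at h3
            have h4 : (N' ^ v) (f x) ∈ M' (-(v : ℤ) - 1) := hM'.mono (by omega) h3
            have h5 := hM'.inj v _ h1 h4
            have h6 : (v : ℤ) - 1 = t := by omega
            rw [h6] at h5
            exact h5
        exact hd B u (by omega) le_rfl
      refine ⟨hpos, ?_⟩
      intro x hx
      obtain ⟨z, hz, h1⟩ := hM.surj u x hx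
      have h2 := hneg _ (by omega) _ h1
      rw [map_sub, map_pow f hf] at h2
      have h3 := mono_pow hM' _ u _ (hpos z hz)
      have h4 : (u : ℤ) - 2 * u = -(u : ℤ) := by ring
      rw [h4] at h3
      have h5 : f x = (f x - (N' ^ u) (f z)) + (N' ^ u) (f z) := by abel
      rw [h5]
      exact Submodule.add_mem _ (hM'.mono (by omega) h2) h3
  intro x hx
  rcases le_total 0 s with hs | hs
  · obtain ⟨v, rfl⟩ : ∃ v : ℕ, s = (v : ℤ) := ⟨s.natAbs, by omega⟩
    exact (key B v (by omega)).1 x hx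
  · obtain ⟨v, rfl⟩ : ∃ v : ℕ, s = -(v : ℤ) := ⟨s.natAbs, by omega⟩
    exact (key B v (by omega)).2 x hx

/-- Direct summands have the monodromy-weight property. -/
lemma wm_summand [Algebra ℚ Ω] {W : Type} {ρ : W → V →ₗ[Ω] V} {ρ' : W → V' →ₗ[Ω] V'}
    {deg : W → ℤ} {q : ℕ} {m : ℤ} (i : V' →ₗ[Ω] V) (r : V →ₗ[Ω] V') (h : ∀ x, r (i x) = x)
    (hi : ∀ x, i (N' x) = N (i x)) (hr : ∀ x, r (N x) = N' (r x))
    (hiρ : ∀ g x, i (ρ' g x) = ρ g (i x)) (hV : MonodromyWeight N ρ deg q m) :
    MonodromyWeight N' ρ' deg q m := by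
  obtain ⟨M, hM, hw⟩ := hV
  have hinj : Function.Injective i := fun x y hxy => by rw [← h x, ← h y, hxy]
  have hir : ∀ s, ∀ x ∈ M s, i (r x) ∈ M s := mono_func hM hM (i ∘ₗ r) fun x => by
    rw [LinearMap.comp_apply, LinearMap.comp_apply, hr, hi]
  refine ⟨fun s => (M s).comap i, ⟨?_, ?_, ?_, ?_, ?_, ?_⟩, ?_⟩
  · intro a b hab
    exact Submodule.comap_mono (hM.mono hab)
  · obtain ⟨s, hs⟩ := hM.bot
    refine ⟨s, ?_⟩
    change (M s).comap i = ⊥
    rw [hs, Submodule.comap_bot, LinearMap.ker_eq_bot]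
    exact hinj
  · obtain ⟨s, hs⟩ := hM.top
    exact ⟨s, by change (M s).comap i = ⊤; rw [hs, Submodule.comap_top]⟩
  · intro s x hx
    change i (N' x) ∈ M (s - 2)
    rw [hi]
    exact hM.shift s _ hx
  · intro s x hx h2
    change i ((N' ^ s) x) ∈ M (-s - 1) at h2
    rw [map_pow i hi] at h2
    exact hM.inj s _ hx h2
  · intro s y hy
    obtain ⟨x, hx, h2⟩ := hM.surj s _ hy
    refine ⟨r x, hir _ x hx, ?_⟩
    change i (y - (N' ^ s) (r x)) ∈ M (-s - 1)
    have h3 : i (y - (N' ^ s) (r x)) = i (r (i y - (N ^ s) x)) := by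
      rw [map_sub r, h, map_pow r hr]
    rw [h3]
    exact hir _ _ h2
  · intro s g
    obtain ⟨hst, hev⟩ := hw s g
    refine ⟨?_, ?_⟩
    · intro x hx
      change i (ρ' g x) ∈ M s
      rw [hiρ]
      exact hst _ hx
    · intro x hx hn c hc
      refine hev (i x) hx hn c ?_
      change i (ρ' g x - c • x) ∈ M (s - 1) at hc
      rw [map_sub, hiρ, map_smul] at hc
      exact hc

end func

section

variable {k : Type} [Field k] {C : Type u} [Category.{v} C] [Abelian C] {D : Graded k C}
  {Ω W : Type} [Field Ω] [Algebra ℚ Ω] {R : LocalRealisation C Ω W} {deg : W → ℤ} {q : ℕ}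

lemma mw_summand {m : ℤ} {A B : C} (s : A ⟶ B) (r : B ⟶ A) (h : s ≫ r = 𝟙 A)
    (hB : MWAt R deg q m B) : MWAt R deg q m A := by
  refine wm_summand (R.F.map s).hom (R.F.map r).hom (fun x => ?_) (nat_apply R.N s)
    (nat_apply R.N r) (fun g => nat_apply (R.ρ g) s) hB
  have h1 : R.F.map s ≫ R.F.map r = 𝟙 _ := by rw [← R.F.map_comp, h, R.F.map_id]
  exact congrArg (fun f => f x) (congrArg ModuleCat.Hom.hom h1)

/-- The monodromy-weight property is stable. -/
lemma stable_mw' (hR : IsLocalRealisation R D.L deg q) (hq : 0 < q)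
    (h1 : MWAt R deg q 0 D.one) : Stable D (MWAt R deg q) where
  zero w A hA := by
    have := hR.additive
    exact mw_zero hA
  sum w A A' hA hA' := by
    have := hR.additive
    exact mw_sum hq hA hA'
  summand w A B s r h hB := mw_summand s r h hB
  twist w A := mw_twist (D := D) hR hq w A
  unit := h1

end

end Pool.Agent.Y691.TU
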