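import Pool.Agent.Y691.TU.WmF

/-!
# The monodromy-weight property and cubic hypersurfaces
-/

set_option autoImplicit false

open CategoryTheory CategoryTheory.Limits AlgebraicGeometry

namespace Pool.Agent.Y691.TU

open Pool.Agent.Y116.UV Pool.Agent.Y101.Th Pool.Agent.Z125.UN

universe v u

variable {K : Type} [Field K] [CharZero K] {C : Type u} [Category.{v} C] [Abelian C]
  {D : Graded K C} {Ω W : Type} [Field Ω] [Algebra ℚ Ω] {R : LocalRealisation C Ω W}
  {deg : W → ℤ} {q : ℕ}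

lemma mw_unit (hk : Resolution K) (hD : IsGraded D)
    (surfaces : ∀ X : Sch K, SmProj X → topologicalKrullDim X.left ≤ 2 → ∀ i,
      MWAt R deg q i (D.H X i i)) : MWAt R deg q 0 D.one :=
  unit_of hk hD (Q := MWAt R deg q) (fun _ _ _ s r h hB => mw_summand s r h hB)
    (fun X hX hd i => surfaces X hX (hd.trans (by norm_num)) i)

theorem mw_main (hk : Resolution K) (hC : Semisimple C) (hD : IsGraded D)
    (hR : IsLocalRealisation R D.L deg q) (hq : 0 < q)
    (surfaces : ∀ X : Sch K, SmProj X → topologicalKrullDim X.left ≤ 2 → ∀ i,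
      MWAt R deg q i (D.H X i i)) :
    (∀ (a b c : ℕ) (t : Fin a → Fin b → Fin c → K), (a ≤ 4 ∨ b ≤ 4 ∨ c ≤ 4) → ∀ w j,
      MWAt R deg q w (D.H (hypS t) w j)) ∧
    (∀ n : ℕ,
      (∀ X : Sch K, SmProj X → topologicalKrullDim X.left ≤ n → ∀ i,
          MWAt R deg q i (D.H X i i)) ↔
        ∀ (a b c : ℕ) (t : Fin a → Fin b → Fin c → K), (a ≤ n + 2 ∨ b ≤ n + 2 ∨ c ≤ n + 2) →
          ∀ w j, MWAt R deg q w (D.H (hypS t) w j)) ∧
    ((∀ X : Sch K, SmProj X → ∀ i, MWAt R deg q i (D.H X i i)) ↔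
      ∀ (a b c : ℕ) (t : Fin a → Fin b → Fin c → K) (w j : ℤ),
        MWAt R deg q w (D.H (hypS t) w j)) := by
  have hQ := stable_mw' hR hq (mw_unit hk hD surfaces)
  exact ⟨(cubic_dim hk hC hD hQ 2).mp (by exact_mod_cast surfaces), cubic_dim hk hC hD hQ,
    cubic_all hk hC hD hQ⟩

end Pool.Agent.Y691.TU
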